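import Pool.Agent.Lib.H98TF.FunD4

/-!
# H36V, file D4R: form D4 relative to an arbitrary graph `R`, in the language of simple drawings
-/

set_option autoImplicit false

open H53P SimpleDraw

namespace H36V

open Finset H98P H98Z H98M H63F H30F H63L H97W H85TF H98TF

open Classical in
/-- The edge set of `R`. -/
noncomputable def es {n : ℕ} (R : SimpleGraph (Fin n)) : Finset (Sym2 (Fin n)) :=
  univ.filter fun e => e ∈ R.edgeSet

theorem mem_es {n : ℕ} {R : SimpleGraph (Fin n)} {e : Sym2 (Fin n)} : e ∈ es R ↔ e ∈ R.edgeSet := by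
  unfold es
  simp

theorem es_sub {n : ℕ} (R : SimpleGraph (Fin n)) : es R ⊆ LW univ := by
  intro e he
  have h1 := mem_es.1 he
  unfold LW
  rw [mem_filter]
  refine ⟨?_, R.not_isDiag_of_mem_edgeSet h1⟩
  rw [mem_sym2_iff]
  exact fun v _ => mem_univ v

theorem gr_es {n : ℕ} (R : SimpleGraph (Fin n)) : gr (es R) = R := by
  ext a b
  have h1 : (gr (es R)).Adj a b ↔ (SimpleGraph.fromEdgeSet (es R : Set (Sym2 (Fin n)))).Adj a b := Iff.rfl
  rw [h1, SimpleGraph.fromEdgeSet_adj, mem_coe, mem_es, SimpleGraph.mem_edgeSet]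
  exact ⟨fun h => h.1, fun h => ⟨h, h.ne⟩⟩

theorem gr_union {n : ℕ} (A B : Finset (Sym2 (Fin n))) : gr (A ∪ B) = gr A ⊔ gr B := by
  ext a b
  have h1 : ∀ C : Finset (Sym2 (Fin n)), (gr C).Adj a b ↔
      (SimpleGraph.fromEdgeSet (C : Set (Sym2 (Fin n)))).Adj a b := fun C => Iff.rfl
  rw [SimpleGraph.sup_adj, h1, h1, h1, SimpleGraph.fromEdgeSet_adj, SimpleGraph.fromEdgeSet_adj,
    SimpleGraph.fromEdgeSet_adj, mem_coe, mem_coe, mem_coe, mem_union]
  tauto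

/-- FORM D4R for simple drawings, from the abstract form. -/
theorem draw_D4R {n : ℕ} (hn : 4 ≤ n) (D : SimpleDrawing n) (R : SimpleGraph (Fin n))
    {G : Finset (Sym2 (Fin n))} (hGL : G ⊆ LW univ) (hGP : Plane (crossT (H53P.table D)) G) (hT : TC G)
    (hm : 2 * Fintype.card (Fin n) ≤ G.card + 3)
    (h : (∃ G0 ⊆ G, ¬ Disc univ (G0 ∪ es R) ∧ ∀ v, dg (G0 ∪ es R) v = 2) ∨
      (NoCut2 (G ∪ es R) ∧ H75U.Cov4 (G ∪ es R) univ)) :
    ∃ G H F : SimpleGraph (Fin n), D.Plane G ∧ H ≤ G ∧ F ≤ H ⊔ R ∧ H.Connected ∧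
      (∀ v, (H.induce {w | w ≠ v}).Connected) ∧ H.edgeSet.ncard = 2 * n - 3 ∧
      (∀ v, (F.neighborSet v).ncard = 2) ∧
      (∀ (v : Fin n) (c : F.Walk v v), c.IsCycle → 4 ≤ c.length) ∧
      ((R ≤ F ∧ ∃ (v : Fin n) (c : F.Walk v v), c.IsHamiltonianCycle) ∨
        ∀ u v, ((G ⊔ R).induce {w | w ≠ u ∧ w ≠ v}).Connected) := by
  have hd := not_diag_of_LW hGL
  have hdR := not_diag_of_LW (es_sub R)
  have hdU : ∀ e ∈ G ∪ es R, ¬ e.IsDiag := fun e he => (mem_union.1 he).elim (hd e) (hdR e)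
  have key : ∀ F ⊆ G ∪ es R, (∀ v, dg F v = 2) → ∃ H : SimpleGraph (Fin n), D.Plane (gr G) ∧ H ≤ gr G ∧
      gr F ≤ H ⊔ R ∧ H.Connected ∧ (∀ v, (H.induce {w | w ≠ v}).Connected) ∧
      H.edgeSet.ncard = 2 * n - 3 := by
    intro F hF h2
    obtain ⟨H, g1, g2, g3, g4, g5, g6⟩ := layer2 (by omega) D hGL hGP hT (inter_subset_right : F ∩ G ⊆ G)
      (fun v => by
        rw [← h2 v]
        unfold dg
        exact card_le_card (filter_subset_filter _ inter_subset_left)) hm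
    refine ⟨H, g1, g2, ?_, g3, g4, g5⟩
    have h7 : F ⊆ (F ∩ G) ∪ es R := by
      intro e he
      rcases mem_union.1 (hF he) with h8 | h8
      · exact mem_union_left _ (mem_inter.2 ⟨he, h8⟩)
      · exact mem_union_right _ h8
    calc gr F ≤ gr ((F ∩ G) ∪ es R) := gr_mono h7
      _ = gr (F ∩ G) ⊔ R := by rw [gr_union, gr_es]
      _ ≤ H ⊔ R := sup_le_sup_right g6 R
  rcases h with ⟨G0, hG0, hc, h2⟩ | ⟨hN, F, hF, hnt, -, h2⟩
  · have hF : G0 ∪ es R ⊆ G ∪ es R := union_subset_union_left hG0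
    have hdF : ∀ e ∈ G0 ∪ es R, ¬ e.IsDiag := fun e he => hdU e (hF he)
    obtain ⟨H, g1, g2, g3, g4, g5, g6⟩ := key _ hF h2
    refine ⟨gr G, H, gr (G0 ∪ es R), g1, g2, g3, g4, g5, g6, fun v => (degree_gr hdF v).trans (h2 v),
      fun v c hcyc => four_le_gr (nt_of_ham (by rw [Fintype.card_fin]; exact hn) hdF hc h2) c hcyc,
      Or.inl ⟨?_, ⟨0, by omega⟩, ham_gr (by omega) hdF hc h2 _⟩⟩
    rw [gr_union, gr_es]
    exact le_sup_right
  · have hdF : ∀ e ∈ F, ¬ e.IsDiag := fun e he => hdU e (hF he)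
    obtain ⟨H, g1, g2, g3, g4, g5, g6⟩ := key F hF fun v => h2 v (mem_univ v)
    refine ⟨gr G, H, gr F, g1, g2, g3, g4, g5, g6, fun v => (degree_gr hdF v).trans (h2 v (mem_univ v)),
      fun v c hcyc => four_le_gr hnt c hcyc, Or.inr ?_⟩
    have h8 := conn3 (G := G ∪ es R) (by omega) (tc_mono subset_union_left hT) hN
    rw [gr_union, gr_es] at h8
    exact h8

end H36V
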