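import Pool.Agent.Lib.H36V.FunR
import Pool.Agent.Lib.H36V.D4R

/-!
# H36V, file Cor: graphs `R` in no Hamiltonian cycle, three prescribed vertices
-/

set_option autoImplicit false

open SimpleDraw

namespace H36V

/-- A graph without triangles and with all degrees two contains no vertex of degree three and no triangle. -/
theorem not_le {n : ℕ} {R F : SimpleGraph (Fin n)} (h2 : ∀ v, (F.neighborSet v).ncard = 2)
    (h4 : ∀ (v : Fin n) (c : F.Walk v v), c.IsCycle → 4 ≤ c.length)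
    (hR : (∃ v, 3 ≤ (R.neighborSet v).ncard) ∨ ∃ a b c, R.Adj a b ∧ R.Adj b c ∧ R.Adj a c) : ¬ R ≤ F := by
  intro hle
  rcases hR with ⟨v, hv⟩ | ⟨a, b, c, hab, hbc, hac⟩
  · have h1 : R.neighborSet v ⊆ F.neighborSet v := fun w hw => hle hw
    have h3 := Set.ncard_le_ncard h1 (Set.toFinite _)
    have h5 := h2 v
    omega
  · have h1 : ∃ s : Finset (Fin n), F.IsNClique 3 s :=
      ⟨{a, b, c}, SimpleGraph.is3Clique_triple_iff.2 ⟨hle hab, hle hac, hle hbc⟩⟩
    obtain ⟨s, hs⟩ := h1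
    have h3 := (SimpleGraph.is3Clique_iff_exists_cycle_length_three (G := F)).1 ⟨s, hs⟩
    obtain ⟨u, w, hw, hl⟩ := h3
    have := h4 u w hw
    omega

/-- The triangle `abc`. -/
def tri {n : ℕ} (a b c : Fin n) : SimpleGraph (Fin n) := SimpleGraph.fromEdgeSet {s(a, b), s(b, c), s(a, c)}

theorem tri_adj {n : ℕ} {a b c : Fin n} (hab : a ≠ b) (hbc : b ≠ c) (hac : a ≠ c) :
    (tri a b c).Adj a b ∧ (tri a b c).Adj b c ∧ (tri a b c).Adj a c := by
  unfold tri
  refine ⟨?_, ?_, ?_⟩ <;> rw [SimpleGraph.fromEdgeSet_adj]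
  · exact ⟨by simp, hab⟩
  · exact ⟨by simp, hbc⟩
  · exact ⟨by simp, hac⟩

theorem tri_mem {n : ℕ} {a b c x y : Fin n} (h : (tri a b c).Adj x y) : x = a ∨ x = b ∨ x = c := by
  unfold tri at h
  rw [SimpleGraph.fromEdgeSet_adj] at h
  have h1 := h.1
  simp only [Set.mem_insert_iff, Set.mem_singleton_iff, Sym2.eq_iff] at h1
  tauto

/-- If `G` and the triangle `abc` together are 3-connected, every component of `G - {u, v}` contains `a`, `b` or
`c`. -/
theorem reach {n : ℕ} {G : SimpleGraph (Fin n)} {a b c : Fin n} (hab : a ≠ b) (hbc : b ≠ c) (hac : a ≠ c)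
    (u v : Fin n) (h : ((G ⊔ tri a b c).induce {w | w ≠ u ∧ w ≠ v}).Connected)
    (w : {w : Fin n | w ≠ u ∧ w ≠ v}) :
    ∃ z : {w : Fin n | w ≠ u ∧ w ≠ v}, (z.1 = a ∨ z.1 = b ∨ z.1 = c) ∧
      (G.induce {w | w ≠ u ∧ w ≠ v}).Reachable w z := by
  classical
  -- a vertex among `a`, `b`, `c` outside of `{u, v}`
  have h0 : ∃ z : {w : Fin n | w ≠ u ∧ w ≠ v}, z.1 = a ∨ z.1 = b ∨ z.1 = c := by
    by_contra hcon
    push Not at hcon
    have h1 : ∀ x : Fin n, x = a ∨ x = b ∨ x = c → x = u ∨ x = v := by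
      intro x hx
      by_contra h2
      rw [not_or] at h2
      have h3 := hcon ⟨x, h2⟩
      rcases hx with hx | hx | hx
      · exact h3.1 hx
      · exact h3.2.1 hx
      · exact h3.2.2 hx
    rcases h1 a (Or.inl rfl) with h2 | h2 <;> rcases h1 b (Or.inr (Or.inl rfl)) with h3 | h3 <;>
      rcases h1 c (Or.inr (Or.inr rfl)) with h4 | h4
    · exact hab (h2.trans h3.symm)
    · exact hab (h2.trans h3.symm)
    · exact hac (h2.trans h4.symm)
    · exact hbc (h3.trans h4.symm)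
    · exact hbc (h3.trans h4.symm)
    · exact hac (h2.trans h4.symm)
    · exact hab (h2.trans h3.symm)
    · exact hab (h2.trans h3.symm)
  obtain ⟨z0, hz0⟩ := h0
  obtain ⟨p⟩ := h.preconnected w z0
  -- walk until the first vertex among `a`, `b`, `c`
  induction p with
  | nil => exact ⟨_, hz0, SimpleGraph.Reachable.refl _⟩
  | @cons x y z hxy q ih =>
    by_cases hx : x.1 = a ∨ x.1 = b ∨ x.1 = c
    · exact ⟨x, hx, SimpleGraph.Reachable.refl _⟩
    · obtain ⟨z', h1, h2⟩ := ih hz0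
      refine ⟨z', h1, SimpleGraph.Reachable.trans ?_ h2⟩
      have h3 : (G ⊔ tri a b c).Adj x.1 y.1 := hxy
      rw [SimpleGraph.sup_adj] at h3
      rcases h3 with h3 | h3
      · exact SimpleGraph.Adj.reachable (G := G.induce {w | w ≠ u ∧ w ≠ v}) h3
      · exact absurd (tri_mem h3) hx

end H36V
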