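import Pool.Agent.Lib.H36V.D4R

/-!
# H36V, file D7: the relative form with the 2-factor inside the plane graph, in the language of simple drawings
-/

set_option autoImplicit false

open H53P SimpleDraw

namespace H36V

open Finset H98P H98Z H98M H63F H30F H63L H97W H85TF H98TF

/-- FORM D7 for simple drawings, from the abstract form. -/
theorem draw_D7 {n : ℕ} (hn : 4 ≤ n) (D : SimpleDrawing n) (R : SimpleGraph (Fin n))
    {G : Finset (Sym2 (Fin n))} (hGL : G ⊆ LW univ) (hGP : Plane (crossT (H53P.table D)) G) (hT : TC G)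
    (hm : 2 * Fintype.card (Fin n) ≤ G.card + 3)
    (h : (∃ F ⊆ G, es R ⊆ F ∧ ¬ Disc univ F ∧ ∀ v, dg F v = 2) ∨
      (NoCut2 (G ∪ es R) ∧ H75U.Cov4 G univ)) :
    ∃ G H F : SimpleGraph (Fin n), D.Plane G ∧ H ≤ G ∧ F ≤ H ∧ H.Connected ∧
      (∀ v, (H.induce {w | w ≠ v}).Connected) ∧ H.edgeSet.ncard = 2 * n - 3 ∧
      (∀ v, (F.neighborSet v).ncard = 2) ∧
      (∀ (v : Fin n) (c : F.Walk v v), c.IsCycle → 4 ≤ c.length) ∧
      ((R ≤ F ∧ ∃ (v : Fin n) (c : F.Walk v v), c.IsHamiltonianCycle) ∨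
        ∀ u v, ((G ⊔ R).induce {w | w ≠ u ∧ w ≠ v}).Connected) := by
  have hd := not_diag_of_LW hGL
  rcases h with ⟨F, hF, hRF, hc, h2⟩ | ⟨hN, F, hF, hnt, -, h2⟩
  · have hdF : ∀ e ∈ F, ¬ e.IsDiag := fun e he => hd e (hF he)
    obtain ⟨H, g1, g2, g3, g4, g5, g6⟩ := layer2 (by omega) D hGL hGP hT hF (fun v => (h2 v).le) hm
    refine ⟨gr G, H, gr F, g1, g2, g6, g3, g4, g5, fun v => (degree_gr hdF v).trans (h2 v),
      fun v c hcyc => four_le_gr (nt_of_ham (by rw [Fintype.card_fin]; exact hn) hdF hc h2) c hcyc,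
      Or.inl ⟨?_, ⟨0, by omega⟩, ham_gr (by omega) hdF hc h2 _⟩⟩
    rw [← gr_es R]
    exact gr_mono hRF
  · have hdF : ∀ e ∈ F, ¬ e.IsDiag := fun e he => hd e (hF he)
    obtain ⟨H, g1, g2, g3, g4, g5, g6⟩ := layer2 (by omega) D hGL hGP hT hF
      (fun v => (h2 v (mem_univ v)).le) hm
    refine ⟨gr G, H, gr F, g1, g2, g6, g3, g4, g5, fun v => (degree_gr hdF v).trans (h2 v (mem_univ v)),
      fun v c hcyc => four_le_gr hnt c hcyc, Or.inr ?_⟩
    have h8 := conn3 (G := G ∪ es R) (by omega) (tc_mono subset_union_left hT) hN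
    rw [gr_union, gr_es] at h8
    exact h8

end H36V
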