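import Pool.Agent.Lib.H98TF.FunD4
import Pool.Agent.Lib.H36R.FD4

/-!
# H36V, file FunR: the functor step of form D4 relative to an arbitrary graph `R`
-/

set_option autoImplicit false
set_option linter.unusedSectionVars false

namespace H36V

open Finset H98P H98Z H98M H63F H30F H85TF LD H77D4 H98TF

/-- THE FUNCTOR STEP OF FORM D4, relative to a graph `R`. -/
theorem formD4R {V : Type} [Fintype V] [DecidableEq V] {cross : Sym2 V → Sym2 V → Prop}
    (hsymm : ∀ e f, cross e f → cross f e) (hHD : ∀ W, HD cross W) (h4 : 4 ≤ Fintype.card V)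
    {R : Finset (Sym2 V)} (hR : R ⊆ LW univ) :
    ∃ G : Finset (Sym2 V), G ⊆ LW univ ∧ Plane cross G ∧ TC G ∧ 2 * Fintype.card V ≤ G.card + 3 ∧
      ((∃ G0 ⊆ G, ¬ Disc univ (G0 ∪ R) ∧ ∀ v, dg (G0 ∪ R) v = 2) ∨
        (NoCut2 (G ∪ R) ∧ H75U.Cov4 (G ∪ R) univ)) := by
  have hV : ∃ x y : V, x ≠ y := by
    obtain ⟨x, y, h⟩ := Fintype.exists_pair_of_one_lt_card (α := V) (by omega)
    exact ⟨x, y, h⟩
  obtain ⟨G, hGL, hGp, ⟨hT, hN⟩, hcard⟩ := exactX hsymm hHD hV
    (fun G W => Disc W G ∧ (TC G → U4 (G ∪ R) univ W ∨ X2 (G ∪ R) univ W))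
    (fun G => TC G ∧ ((∃ G0 ⊆ G, ¬ Disc univ (G0 ∪ R) ∧ ∀ v, dg (G0 ∪ R) v = 2) ∨
      (NoCut2 (G ∪ R) ∧ H75U.Cov4 (G ∪ R) univ)))
    (fun G G' hGG _ W hW => ⟨H85TF.disc_anti hGG hW.1, fun hT =>
      (hW.2 (tc_mono hGG hT)).imp (fun h => h.anti (union_subset_union_left hGG))
        (fun h => h.anti (union_subset_union_left hGG))⟩)
    (fun G W _ h => h.1)
    (fun G G' hGG _ h => ⟨tc_mono hGG h.1, h.2.imp (fun ⟨G0, h1, h2⟩ => ⟨G0, h1.trans hGG, h2⟩)
      (fun h => ⟨noCut2_mono (union_subset_union_left hGG) h.1,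
        H75U.cov4_edges (union_subset_union_left hGG) h.2⟩)⟩)
    (fun G hGL hno => by
      have hEL : G ∪ R ⊆ LW univ := union_subset hGL hR
      by_cases hT : TC G
      · have hTE : TC (G ∪ R) := tc_mono subset_union_left hT
        have hY := tcy_of_tc (by omega) hEL hTE
        have hdx : ∀ {W : Finset V}, X2 (G ∪ R) univ W → Disc W G := fun h =>
          H85TF.disc_anti subset_union_left (disc_of_x2 h)
        by_cases hU : U4 (G ∪ R) univ univ
        · refine ac_congr (fun t => ?_) (H30D.remove_univ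
            (P := fun W => U4 (G ∪ R) univ W ∨ X2 (G ∪ R) univ W) (G := G) (fun M hM hMc => ?_) (Or.inl hU))
          · constructor
            · exact ch_mono fun W hW => ⟨hW.2, fun _ => hW.1⟩
            · exact ch_mono fun W hW => ⟨hW.2 hT, hW.1⟩
          · exact H36R.L2_4 (G ∪ R) hEL hY M (fun h => hMc (H85TF.disc_anti subset_union_left h))
              (hM.resolve_right fun h => hMc (hdx h))
        · have hU' : ∀ W, ¬ U4 (G ∪ R) univ W := fun W h => hU (h.up (subset_univ W))
          have hcov : H75U.Cov4 (G ∪ R) univ := by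
            by_contra h
            refine hU (U4.base (by rw [card_univ]; exact h4) ?_)
            rw [univ_inter]
            exact h
          have hno' : ¬ ((∃ G0 ⊆ G, ¬ Disc univ (G0 ∪ R) ∧ ∀ v, dg (G0 ∪ R) v = 2) ∨
              (NoCut2 (G ∪ R) ∧ H75U.Cov4 (G ∪ R) univ)) := fun h => hno ⟨hT, h⟩
          rw [not_or, not_and] at hno'
          have hsep : ∃ x y P Q, Sep (G ∪ R) univ x y P Q := by
            by_contra hcon
            push Not at hcon
            exact hno'.2 (noCut2_of_noSep hcon) hcov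
          have hdeg : ¬ ∀ v, dg (G ∪ R) v = 2 := fun h => hno'.1 ⟨G, Subset.rfl, hTE.1, h⟩
          refine ac_congr (fun t => ?_) (H36R.L1_4 (G ∪ R) hEL hY hsep hdeg)
          constructor
          · exact ch_mono fun W hW => ⟨hdx hW, fun _ => Or.inr hW⟩
          · exact ch_mono fun W hW => (hW.2 hT).resolve_left (hU' W)
      · refine ac_congr (fun t => ?_) (H30D.ac_disc G (by
          by_contra hcon
          rw [not_or, not_exists] at hcon
          exact hT hcon))
        constructor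
        · exact ch_mono fun W hW => ⟨hW, fun h => absurd h hT⟩
        · exact ch_mono fun W hW => hW.1)
  exact ⟨G, hGL, hGp, hT, hcard, hN⟩

end H36V
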