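import Pool.Agent.Lib.H36V.L7
import Pool.Agent.Lib.H36V.FunR

/-!
# H36V, file Fun7: the functor step of the relative form with the 2-factor inside the plane graph
-/

set_option autoImplicit false
set_option linter.unusedSectionVars false

namespace H36V

open Finset H98P H98Z H98M H63F H30F H85TF LD H77D4 H98TF H75U

/-- The covering predicate: cycles of length at least four, graphs with at least four vertices. -/
def K4 {V : Type} [DecidableEq V] (G : Finset (Sym2 V)) (Y W : Finset V) : Prop := 4 ≤ Y.card → Cov4 G (W ∩ Y)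

theorem kp4 (V : Type) [Fintype V] [DecidableEq V] : KP (K4 : Finset (Sym2 V) → Finset V → Finset V → Prop) where
  sub hW h := fun h4 => cov4_sub (inter_subset_inter_right hW) (h h4)
  mono hG h := fun h4 => cov4_edges hG (h h4)
  two := by
    intro G Y W hT h2 h4
    by_contra h
    exact H36R.u4_two hT h2 (U4.base h4 h)
  cyc := by
    intro G Y W hT h2 h4
    by_contra h
    exact u4_cycle hT h2 (U4.base h4 h)
  redn := by
    intro G Y W x y P Q hT hs hW h _
    have h2 : W ∩ (Y \ Q) = W ∩ Y := by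
      ext w
      simp only [mem_inter, mem_sdiff]
      exact ⟨fun h3 => ⟨h3.1, h3.2.1⟩, fun h3 => ⟨h3.1, h3.2, disjoint_left.1 hW h3.1⟩⟩
    rw [← h2]
    by_cases h5 : 4 ≤ (Y \ Q).card
    · exact cov4_red' hT hs (h h5)
    · exact cov4_sub inter_subset_right (cov4_three hT hs (by omega))

/-- The lower links for `K4`. -/
theorem L2_7 {V : Type} [Fintype V] [DecidableEq V] {E G : Finset (Sym2 V)} (hGE : G ⊆ E) (hG : TCY G univ)
    (hE : TCY E univ) {M : Finset V} (hM : ¬ Disc M G) (hU : U7 K4 E G univ M) :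
    AC (Ch fun W : Finset V => (U7 K4 E G univ W ∨ X2 E univ W) ∧ W ⊂ M) := by
  refine l2u7 (kp4 V) (fun E G Y M _ hG _ _ hMY hM hK => ?_) (univ : Finset V).card E G univ M rfl hGE hG hE
    (subset_univ M) hM hU
  unfold K4 at hK
  rw [Classical.not_imp, inter_eq_left.2 hMY] at hK
  have h1 := H36R.base10_4 G Y M hG hK.1 hMY hM hK.2
  refine ac_congr (fun c => ?_) h1
  have e : (fun W : Finset V => ¬ Cov4 G W ∧ W ⊂ M) = fun W : Finset V => ¬ K4 G Y W ∧ W ⊂ M := by
    funext W
    refine propext (and_congr_left fun h2 => not_congr ?_)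
    unfold K4
    rw [inter_eq_left.2 (h2.1.trans hMY)]
    exact ⟨fun h3 _ => h3, fun h3 => h3 hK.1⟩
  rw [e]

/-- THE FUNCTOR STEP OF FORM D7, relative to a graph `R`. -/
theorem formD7 {V : Type} [Fintype V] [DecidableEq V] {cross : Sym2 V → Sym2 V → Prop}
    (hsymm : ∀ e f, cross e f → cross f e) (hHD : ∀ W, HD cross W) (h4 : 4 ≤ Fintype.card V)
    {R : Finset (Sym2 V)} (hR : R ⊆ LW univ) :
    ∃ G : Finset (Sym2 V), G ⊆ LW univ ∧ Plane cross G ∧ TC G ∧ 2 * Fintype.card V ≤ G.card + 3 ∧
      ((∃ F ⊆ G, R ⊆ F ∧ ¬ Disc univ F ∧ ∀ v, dg F v = 2) ∨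
        (NoCut2 (G ∪ R) ∧ H75U.Cov4 G univ)) := by
  have hV : ∃ x y : V, x ≠ y := by
    obtain ⟨x, y, h⟩ := Fintype.exists_pair_of_one_lt_card (α := V) (by omega)
    exact ⟨x, y, h⟩
  have hK := kp4 V
  obtain ⟨G, hGL, hGp, ⟨hT, hN⟩, hcard⟩ := exactX hsymm hHD hV
    (fun G W => Disc W G ∧ (TC G → U7 K4 (G ∪ R) G univ W ∨ X2 (G ∪ R) univ W))
    (fun G => TC G ∧ ((∃ F ⊆ G, R ⊆ F ∧ ¬ Disc univ F ∧ ∀ v, dg F v = 2) ∨
      (NoCut2 (G ∪ R) ∧ H75U.Cov4 G univ)))
    (fun G G' hGG _ W hW => ⟨H85TF.disc_anti hGG hW.1, fun hT =>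
      (hW.2 (tc_mono hGG hT)).imp (fun h => h.anti hK (union_subset_union_left hGG) hGG)
        (fun h => h.anti (union_subset_union_left hGG))⟩)
    (fun G W _ h => h.1)
    (fun G G' hGG _ h => ⟨tc_mono hGG h.1, h.2.imp (fun ⟨F, h1, h2⟩ => ⟨F, h1.trans hGG, h2⟩)
      (fun h => ⟨noCut2_mono (union_subset_union_left hGG) h.1, H75U.cov4_edges hGG h.2⟩)⟩)
    (fun G hGL hno => by
      have hEL : G ∪ R ⊆ LW univ := union_subset hGL hR
      by_cases hT : TC G
      · have hTE : TC (G ∪ R) := tc_mono subset_union_left hT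
        have hYE := tcy_of_tc (by omega) hEL hTE
        have hYG := tcy_of_tc (by omega) hGL hT
        have hdx : ∀ {W : Finset V}, X2 (G ∪ R) univ W → Disc W G := fun h =>
          H85TF.disc_anti subset_union_left (disc_of_x2 h)
        by_cases hU : U7 K4 (G ∪ R) G univ univ
        · refine ac_congr (fun t => ?_) (H30D.remove_univ
            (P := fun W => U7 K4 (G ∪ R) G univ W ∨ X2 (G ∪ R) univ W) (G := G) (fun M hM hMc => ?_) (Or.inl hU))
          · constructor
            · exact ch_mono fun W hW => ⟨hW.2, fun _ => hW.1⟩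
            · exact ch_mono fun W hW => ⟨hW.2 hT, hW.1⟩
          · exact L2_7 subset_union_left hYG hYE hMc (hM.resolve_right fun h => hMc (hdx h))
        · have hU' : ∀ W, ¬ U7 K4 (G ∪ R) G univ W := fun W h => hU (h.up hK (subset_univ W))
          have hcov : H75U.Cov4 G univ := by
            by_contra h
            refine hU (U7.base fun h5 => h ?_)
            have h6 := h5 (by rw [card_univ]; exact h4)
            rwa [univ_inter] at h6
          have hno' : ¬ ((∃ F ⊆ G, R ⊆ F ∧ ¬ Disc univ F ∧ ∀ v, dg F v = 2) ∨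
              (NoCut2 (G ∪ R) ∧ H75U.Cov4 G univ)) := fun h => hno ⟨hT, h⟩
          rw [not_or, not_and] at hno'
          have hsep : ∃ x y P Q, Sep (G ∪ R) univ x y P Q := by
            by_contra hcon
            push Not at hcon
            exact hno'.2 (noCut2_of_noSep hcon) hcov
          have hdeg : ¬ ∀ v, dg (G ∪ R) v = 2 := fun h => by
            have h5 := eq_of_two subset_union_left hYG hYE (fun v _ => h v)
            exact hno'.1 ⟨G, Subset.rfl, by
              intro e he
              rw [h5]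
              exact mem_union_right _ he, hT.1, fun v => by rw [h5]; exact h v⟩
          refine ac_congr (fun t => ?_) (H36R.L1_4 (G ∪ R) hEL hYE hsep hdeg)
          constructor
          · exact ch_mono fun W hW => ⟨hdx hW, fun _ => Or.inr hW⟩
          · exact ch_mono fun W hW => (hW.2 hT).resolve_left (hU' W)
      · refine ac_congr (fun t => ?_) (H30D.ac_disc G (by
          by_contra hcon
          rw [not_or, not_exists] at hcon
          exact hT hcon))
        constructor
        · exact ch_mono fun W hW => ⟨hW, fun h => absurd h hT⟩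
        · exact ch_mono fun W hW => hW.1)
  exact ⟨G, hGL, hGp, hT, hcard, hN⟩

end H36V
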