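import Pool.Agent.Lib.H36V.Cor
import Pool.Agent.Lib.H36V.D7
import Pool.Agent.Lib.H36V.Fun7

/-!
# H36V, file Cor7: the edges which are crossed by no edge
-/

set_option autoImplicit false

open SimpleDraw

namespace H36V

/-- The edges `ij` which meet every other edge of the drawing at most in a common end-vertex. -/
def uncrossed {n : ℕ} (D : SimpleDrawing n) : SimpleGraph (Fin n) where
  Adj i j := i ≠ j ∧ ∀ k l, k ≠ l → s(i, j) ≠ s(k, l) → ∀ p ∈ D.curve i j ∩ D.curve k l,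
    ∃ v, (v = i ∨ v = j) ∧ (v = k ∨ v = l) ∧ p = D.pt v
  symm := ⟨fun i j h => by
    refine ⟨h.1.symm, fun k l hkl hne p hp => ?_⟩
    rw [Sym2.eq_swap] at hne
    rw [D.curve_symm j i] at hp
    obtain ⟨v, h1, h2, h3⟩ := h.2 k l hkl hne p hp
    exact ⟨v, h1.symm, h2, h3⟩⟩
  loopless := ⟨fun i h => h.1 rfl⟩

/-- Uncrossed edges can be added to a plane subdrawing. -/
theorem plane_uncrossed {n : ℕ} (D : SimpleDrawing n) {G R : SimpleGraph (Fin n)}
    (hR : ∀ i j, R.Adj i j → ∀ k l, k ≠ l → s(i, j) ≠ s(k, l) → ∀ p ∈ D.curve i j ∩ D.curve k l,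
      ∃ v, (v = i ∨ v = j) ∧ (v = k ∨ v = l) ∧ p = D.pt v)
    (hG : D.Plane G) : D.Plane (G ⊔ R) := by
  intro i j k l hij hkl hne p hp
  rw [SimpleGraph.sup_adj] at hij hkl
  rcases hij with hij | hij
  · rcases hkl with hkl | hkl
    · exact hG i j k l hij hkl hne p hp
    · obtain ⟨v, h1, h2, h3⟩ := hR k l hkl i j hij.ne (Ne.symm hne) p ⟨hp.2, hp.1⟩
      exact ⟨v, h2, h1, h3⟩
  · exact hR i j hij k l (by rcases hkl with h | h <;> exact h.ne) hne p hp

end H36V
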