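import Pool.Agent.Lib.H36V.Cor7
import Pool.Agent.Lib.H77D4.Unc
import Pool.Agent.Lib.H8V.CF

/-!
# H36V, file Cor8: one-graph case (`R` consists of uncrossed edges), cycles of length at least five
-/

set_option autoImplicit false

open H53P SimpleDraw

namespace H36V

open Finset H98P H98Z H98M H63F H30F H63L H97W H85TF H98TF

/-- FORM D4 with all edges of a graph `U` of uncrossed edges, and cycles of length at least five. -/
theorem draw_unc5 {n : ℕ} (hn : 5 ≤ n) (D : SimpleDrawing n) (U : SimpleGraph (Fin n))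
    (hU : ∀ i j, U.Adj i j → ∀ k l, k ≠ l → s(i, j) ≠ s(k, l) → ∀ p ∈ D.curve i j ∩ D.curve k l,
      ∃ v, (v = i ∨ v = j) ∧ (v = k ∨ v = l) ∧ p = D.pt v) :
    ∃ G H F : SimpleGraph (Fin n), D.Plane G ∧ U ≤ G ∧ F ≤ H ∧ H ≤ G ∧ H.Connected ∧
      (∀ v, (H.induce {w | w ≠ v}).Connected) ∧ H.edgeSet.ncard = 2 * n - 3 ∧
      (∀ v, (F.neighborSet v).ncard = 2) ∧
      (∀ (v : Fin n) (c : F.Walk v v), c.IsCycle → 5 ≤ c.length) ∧
      ((U ≤ F ∧ ∃ (v : Fin n) (c : F.Walk v v), c.IsHamiltonianCycle) ∨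
        ∀ u v, (G.induce {w | w ≠ u ∧ w ≠ v}).Connected) := by
  have hU1 := es_sub U
  obtain ⟨G, hGL, hGP, hT, hm, h⟩ := H8V.formD5R (H8V.facts (Fin n)) (H53P.crossT_symm (H53P.table D))
    (H98W.hd_table (H53P.table D)) (by rw [Fintype.card_fin]; exact hn) hU1
  have hGL1 : G ∪ es U ⊆ LW univ := union_subset hGL hU1
  have hd := not_diag_of_LW hGL1
  have hT1 : TC (G ∪ es U) := tc_mono subset_union_left hT
  have hm1 : 2 * Fintype.card (Fin n) ≤ (G ∪ es U).card + 3 := by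
    have := card_le_card (subset_union_left : G ⊆ G ∪ es U)
    omega
  have hP : D.Plane (gr (G ∪ es U)) := by
    rw [gr_union, gr_es]
    exact plane_uncrossed D hU (plane_of D hGP)
  have hUG : U ≤ gr (G ∪ es U) := by
    rw [gr_union, gr_es]
    exact le_sup_right
  rcases h with ⟨G0, hG0, hc, h2⟩ | ⟨hN, F, hF, -, hnt, hnq, h2⟩
  · have hF : G0 ∪ es U ⊆ G ∪ es U := union_subset_union_left hG0
    have hdF : ∀ e ∈ G0 ∪ es U, ¬ e.IsDiag := fun e he => hd e (hF he)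
    obtain ⟨H, g2, g3, g4, g5, g6⟩ := H77D4.layer2' (by omega) hGL1 hT1 hF (fun v => (h2 v).le) hm1
    refine ⟨gr (G ∪ es U), H, gr (G0 ∪ es U), hP, hUG, g6, g2, g3, g4, g5,
      fun v => (degree_gr hdF v).trans (h2 v), fun v c hcyc =>
      H8V.five_le_gr (nt_of_ham (by rw [Fintype.card_fin]; omega) hdF hc h2)
        (H8V.nq_of_ham (by rw [Fintype.card_fin]; exact hn) hdF hc h2) c hcyc,
      Or.inl ⟨?_, ⟨0, by omega⟩, ham_gr (by omega) hdF hc h2 _⟩⟩
    rw [gr_union, gr_es]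
    exact le_sup_right
  · have hdF : ∀ e ∈ F, ¬ e.IsDiag := fun e he => hd e (hF he)
    obtain ⟨H, g2, g3, g4, g5, g6⟩ := H77D4.layer2' (by omega) hGL1 hT1 hF
      (fun v => (h2 v (mem_univ v)).le) hm1
    exact ⟨gr (G ∪ es U), H, gr F, hP, hUG, g6, g2, g3, g4, g5,
      fun v => (degree_gr hdF v).trans (h2 v (mem_univ v)),
      fun v c hcyc => H8V.five_le_gr hnt hnq c hcyc, Or.inr (conn3 (by omega) hT1 hN)⟩

end H36V
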