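import Pool.Agent.Lib.H36V.SubH
import Pool.Agent.Lib.H31S.H
import Pool.Agent.Lib.H41S.R
import Pool.Agent.Lib.H24A.B
import Pool.Agent.Lib.H57G5.E

/-!
# H36V, file CovPi: the fractional covering predicate satisfies all facts
-/

set_option autoImplicit false
set_option linter.unusedSectionVars false

namespace H36V

open Finset H98M LD H85TF

theorem pi_mono {V : Type} [Fintype V] [DecidableEq V] {G G' : Finset (Sym2 V)} {A : Finset V} (hG : G ⊆ G')
    (h : H31S.Pi G A) : H31S.Pi G' A := by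
  obtain ⟨x, ⟨h1, h2, h3⟩, h4, h5⟩ := h
  exact ⟨x, ⟨h1, h2, fun u v huv => h3 u v fun h => huv (hG h)⟩, h4, h5⟩

theorem pi_sub {V : Type} [Fintype V] [DecidableEq V] {G : Finset (Sym2 V)} {A B : Finset V} (hA : A ⊆ B)
    (h : H31S.Pi G B) : H31S.Pi G A := by
  obtain ⟨x, h1, h4, h5⟩ := h
  exact ⟨x, h1, h4, fun S ⟨⟨a, ha, haS⟩, b, hb, hbS⟩ => h5 S ⟨⟨a, hA ha, haS⟩, b, hA hb, hbS⟩⟩

/-- Two vertices are covered. -/
theorem pi_two {V : Type} [Fintype V] [DecidableEq V] {G : Finset (Sym2 V)} {Y A : Finset V} (hT : TCY G Y)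
    (hA : A ⊆ Y) (h2 : A.card ≤ 2) : H31S.Pi G A := by
  obtain ⟨T, hT1, hT2, hT3⟩ := exists_subsuperset_card_eq (n := 2) (s := A) (t := Y) hA h2
    (by have := hT.three; omega)
  obtain ⟨a, b, hab, rfl⟩ := card_eq_two.1 hT3
  exact pi_sub hT1 (H41S.pi_of_one hT.loop (H24A.oneCyc_two hT (hT2 (by simp)) (hT2 (by simp))))

/-- All facts on the covering predicate. -/
theorem cov_pi (V : Type) [Fintype V] [DecidableEq V] :
    CovP (H31S.Pi : Finset (Sym2 V) → Finset V → Prop) where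
  sub hA h := pi_sub hA h
  mono hG h := pi_mono hG h
  two hT hA h2 := pi_two hT hA h2
  cyc hT h2 := H41S.pi_of_one hT.loop (H57G5.oneCyc_of_deg2 hT h2)
  redn := by
    intro G Y A x y P Q hT hs hA h
    by_cases h3 : A.card ≤ 2
    · exact pi_two hT (hA.trans sdiff_subset) h3
    · exact H41S.pi_red hT hs (disjoint_left.2 fun a ha hq => (mem_sdiff.1 (hA ha)).2 hq) (by omega) h
  exch hT hb hd hbU hdU hU hin :=
    H31S.exchange (fun v hv => hT.loop _ hv (by simp)) hb hd hbU hdU hU hin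

end H36V
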