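import Pool.Agent.Lib.H36V.FL
import Pool.Agent.Lib.H57L.Cl
import Pool.Agent.Lib.H98TF.FunD4

/-!
# H36V, file D5: form D4 with a Laman graph `H`, in the language of simple drawings
-/

set_option autoImplicit false

open H53P SimpleDraw

namespace H36V

open Finset H98P H98Z H98M H63F H30F H63L H97W H85TF H98TF H70L

section abs

variable {V : Type*} [Fintype V] [DecidableEq V]

omit [Fintype V] in
/-- Twice the number of edges inside `X` is at most the sum of the degrees. -/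
theorem two_inside {F : Finset (Sym2 V)} (hF : ∀ e ∈ F, ¬ e.IsDiag) (X : Finset V) :
    2 * (F ∩ X.sym2).card ≤ ∑ v ∈ X, dg F v := by
  have h1 : ∑ v ∈ X, dg F v = ∑ e ∈ F, (X.filter fun v => v ∈ e).card := by
    unfold dg
    simp only [card_filter]
    exact sum_comm
  rw [h1, mul_comm, ← smul_eq_mul, ← sum_const]
  refine (sum_le_sum fun e he => ?_).trans (sum_le_sum_of_subset (inter_subset_left : F ∩ X.sym2 ⊆ F))
  obtain ⟨h2, h3⟩ := mem_inter.1 he
  have h4 := hF e h2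
  induction e using Sym2.ind with
  | _ a b =>
    rw [mk_mem_sym2_iff] at h3
    have hab : a ≠ b := fun h => h4 (Sym2.mk_isDiag_iff.2 h)
    rw [← card_pair hab]
    refine card_le_card fun v hv => ?_
    rw [mem_filter]
    rcases mem_insert.1 hv with rfl | hv
    · exact ⟨h3.1, Sym2.mem_mk_left _ _⟩
    · rw [mem_singleton] at hv
      subst hv
      exact ⟨h3.2, Sym2.mem_mk_right _ _⟩

/-- A graph of maximum degree two is sparse. -/
theorem sparse_of_dg {F : Finset (Sym2 V)} (hF : ∀ e ∈ F, ¬ e.IsDiag) (h2 : ∀ v, dg F v ≤ 2) : Sparse F := by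
  intro X hX
  rcases Nat.lt_or_ge 2 X.card with h | h
  · have h3 := two_inside hF X
    have h4 : ∑ v ∈ X, dg F v ≤ ∑ v ∈ X, 2 := sum_le_sum fun v _ => h2 v
    rw [sum_const, smul_eq_mul] at h4
    omega
  · obtain ⟨a, b, hab, rfl⟩ := card_eq_two.1 (le_antisymm h hX)
    have h3 : F ∩ ({a, b} : Finset V).sym2 ⊆ {s(a, b)} := by
      intro e he
      obtain ⟨h4, h5⟩ := mem_inter.1 he
      have h6 := hF e h4
      induction e using Sym2.ind with
      | _ c d =>
        rw [mk_mem_sym2_iff] at h5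
        simp only [mem_insert, mem_singleton] at h5
        have hcd : c ≠ d := fun h => h6 (Sym2.mk_isDiag_iff.2 h)
        rw [mem_singleton, Sym2.eq_iff]
        rcases h5 with ⟨rfl | rfl, rfl | rfl⟩
        · exact absurd rfl hcd
        · exact Or.inl ⟨rfl, rfl⟩
        · exact Or.inr ⟨rfl, rfl⟩
        · exact absurd rfl hcd
    have h4 := card_le_card h3
    rw [card_singleton] at h4
    rw [card_pair hab]
    omega

/-- A sparse part of `G` extends to a sparse subset with `2 n - 3` edges, if there is one. -/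
theorem extend {G F H0 : Finset (Sym2 V)} (hG : G ⊆ LW univ) (hF : F ⊆ G) (hs : Sparse F) (hH : H0 ⊆ G)
    (hH0 : Sparse H0) (hc : H0.card + 3 = 2 * Fintype.card V) (h2 : 2 ≤ Fintype.card V) :
    ∃ H, F ⊆ H ∧ H ⊆ G ∧ Sparse H ∧ H.card + 3 = 2 * Fintype.card V := by
  obtain ⟨J, h1, h3⟩ := H57L.exists_Mx hs hF
  have h4 := H57L.card_le_of_Mx h3 hG hH0 hH
  have h5 := h3.sp univ (by rw [card_univ]; exact h2)
  have h6 : J ∩ (univ : Finset V).sym2 = J := by
    rw [inter_eq_left]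
    intro e _
    rw [mem_sym2_iff]
    exact fun v _ => mem_univ v
  rw [h6, card_univ] at h5
  exact ⟨J, h1, h3.sub, h3.sp, by omega⟩

end abs

/-- FORM D5 for simple drawings, from the abstract form. -/
theorem draw_D5 {n : ℕ} (hn : 4 ≤ n) (D : SimpleDrawing n) {G H0 : Finset (Sym2 (Fin n))}
    (hGL : G ⊆ LW univ) (hGP : Plane (crossT (H53P.table D)) G) (hT : TC G)
    (h : Ham G ∨ (NoCut2 G ∧ H75U.Cov4 G univ)) (hH : H0 ⊆ G) (hH0 : Sparse H0)
    (hc : H0.card + 3 = 2 * Fintype.card (Fin n)) :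
    ∃ G H F : SimpleGraph (Fin n), D.Plane G ∧ F ≤ H ∧ H ≤ G ∧
      H.edgeSet.ncard = 2 * n - 3 ∧
      (∀ S : Finset (Fin n), 2 ≤ S.card → {e ∈ H.edgeSet | ∀ v ∈ e, v ∈ S}.ncard ≤ 2 * S.card - 3) ∧
      H.Connected ∧ (∀ v, (H.induce {w | w ≠ v}).Connected) ∧
      (∀ v, (F.neighborSet v).ncard = 2) ∧
      (∀ (v : Fin n) (c : F.Walk v v), c.IsCycle → 4 ≤ c.length) ∧
      ((∃ (v : Fin n) (c : F.Walk v v), c.IsHamiltonianCycle) ∨
        ∀ u v, (G.induce {w | w ≠ u ∧ w ≠ v}).Connected) := by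
  have hd := not_diag_of_LW hGL
  have hn2 : 2 ≤ Fintype.card (Fin n) := by
    rw [Fintype.card_fin]
    omega
  have key : ∀ F ⊆ G, (∀ v, dg F v = 2) → ∃ H : SimpleGraph (Fin n), gr F ≤ H ∧ H ≤ gr G ∧
      H.edgeSet.ncard = 2 * n - 3 ∧
      (∀ S : Finset (Fin n), 2 ≤ S.card → {e ∈ H.edgeSet | ∀ v ∈ e, v ∈ S}.ncard ≤ 2 * S.card - 3) ∧
      H.Connected ∧ (∀ v, (H.induce {w | w ≠ v}).Connected) := by
    intro F hF h2
    obtain ⟨H, g1, g2, g3, g4⟩ := extend hGL hF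
      (sparse_of_dg (fun e he => hd e (hF he)) fun v => (h2 v).le) hH hH0 hc hn2
    obtain ⟨-, k2, k3, k4, -⟩ := draw_L D (g2.trans hGL) (fun e he f hf => hGP e (g2 he) f (g2 hf)) g3 g4
    refine ⟨gr H, gr_mono g1, gr_mono g2, by omega, fun S hS => ?_, (k4 (by omega)).1, (k4 (by omega)).2⟩
    have := k3 S hS
    omega
  rcases h with ⟨F, hF, hcon, h2⟩ | ⟨hN, F, hF, hnt, -, h2⟩
  · have hdF : ∀ e ∈ F, ¬ e.IsDiag := fun e he => hd e (hF he)
    obtain ⟨H, g1, g2, g3, g4, g5, g6⟩ := key F hF h2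
    exact ⟨gr G, H, gr F, plane_of D hGP, g1, g2, g3, g4, g5, g6, fun v => (degree_gr hdF v).trans (h2 v),
      fun v c hcyc => four_le_gr (nt_of_ham (by rw [Fintype.card_fin]; exact hn) hdF hcon h2) c hcyc,
      Or.inl ⟨⟨0, by omega⟩, ham_gr (by omega) hdF hcon h2 _⟩⟩
  · have hdF : ∀ e ∈ F, ¬ e.IsDiag := fun e he => hd e (hF he)
    obtain ⟨H, g1, g2, g3, g4, g5, g6⟩ := key F hF fun v => h2 v (mem_univ v)
    exact ⟨gr G, H, gr F, plane_of D hGP, g1, g2, g3, g4, g5, g6,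
      fun v => (degree_gr hdF v).trans (h2 v (mem_univ v)),
      fun v c hcyc => four_le_gr hnt c hcyc, Or.inr (conn3 (by omega) hT hN)⟩

end H36V
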