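import Pool.Agent.Lib.H36V.Fun8

/-!
# H36V, file Draw8: the drawing level, cycles of length at least `min n 5`, for every graph `R`
-/

set_option autoImplicit false
set_option linter.unusedSectionVars false

open H53P SimpleDraw

namespace H36V

open Finset H98P H98Z H98M H63F H30F H63L H97W H85TF LD H77D4 H98TF H47G5

/-- A cycle through all vertices gives a covering by cycles of length at least five (`n ≥ 5`). -/
theorem cov5_of_cv {n : ℕ} (hn : 5 ≤ n) {G : Finset (Sym2 (Fin n))} (hd : ∀ e ∈ G, ¬ e.IsDiag)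
    (h : Cv G univ) : ∃ F ⊆ G, H75U.NT F ∧
      (∀ x y z w : Fin n, x ≠ z → y ≠ w → s(x, y) ∈ F → s(y, z) ∈ F → s(z, w) ∈ F → s(w, x) ∉ F) ∧
      ∀ v, dg F v = 2 := by
  rcases h with ⟨F, hF, -, hnt, hnq, h2⟩ | h
  · exact ⟨F, hF, hnt, hnq, fun v => h2 v (mem_univ v)⟩
  · obtain ⟨F, hF, hc, h2⟩ := ham_of_one h
    have hdF : ∀ e ∈ F, ¬ e.IsDiag := fun e he => hd e (hF he)
    exact ⟨F, hF, nt_of_ham (by rw [Fintype.card_fin]; omega) hdF hc h2,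
      H8V.nq_of_ham (by rw [Fintype.card_fin]; exact hn) hdF hc h2, h2⟩

/-- The drawing level for `n ≥ 5`. -/
theorem draw_D8 {n : ℕ} (hn : 5 ≤ n) (D : SimpleDrawing n) (R : SimpleGraph (Fin n))
    {G : Finset (Sym2 (Fin n))} (hGL : G ⊆ LW univ) (hGP : Plane (crossT (H53P.table D)) G) (hT : TC G)
    (hm : 2 * Fintype.card (Fin n) ≤ G.card + 3)
    (h : (∃ F ⊆ G, es R ⊆ F ∧ ¬ Disc univ F ∧ ∀ v, dg F v = 2) ∨ (NoCut2 (G ∪ es R) ∧ Cv G univ)) :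
    ∃ G H F : SimpleGraph (Fin n), D.Plane G ∧ F ≤ H ∧ H ≤ G ∧ H.Connected ∧
      (∀ v, (H.induce {w | w ≠ v}).Connected) ∧ H.edgeSet.ncard = 2 * n - 3 ∧
      (∀ v, (F.neighborSet v).ncard = 2) ∧
      (∀ (v : Fin n) (c : F.Walk v v), c.IsCycle → 5 ≤ c.length) ∧
      ((R ≤ F ∧ ∃ (v : Fin n) (c : F.Walk v v), c.IsHamiltonianCycle) ∨
        ∀ u v, ((G ⊔ R).induce {w | w ≠ u ∧ w ≠ v}).Connected) := by
  have hd := not_diag_of_LW hGL
  rcases h with ⟨F, hF, hRF, hc, h2⟩ | ⟨hN, h⟩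
  · have hdF : ∀ e ∈ F, ¬ e.IsDiag := fun e he => hd e (hF he)
    obtain ⟨H, g1, g2, g3, g4, g5, g6⟩ := layer2 (by omega) D hGL hGP hT hF (fun v => (h2 v).le) hm
    refine ⟨gr G, H, gr F, g1, g6, g2, g3, g4, g5, fun v => (degree_gr hdF v).trans (h2 v),
      fun v c hcyc => H8V.five_le_gr (nt_of_ham (by rw [Fintype.card_fin]; omega) hdF hc h2)
        (H8V.nq_of_ham (by rw [Fintype.card_fin]; exact hn) hdF hc h2) c hcyc,
      Or.inl ⟨?_, ⟨0, by omega⟩, ham_gr (by omega) hdF hc h2 _⟩⟩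
    rw [← gr_es R]
    exact gr_mono hRF
  · obtain ⟨F, hF, hnt, hnq, h2⟩ := cov5_of_cv hn hd h
    have hdF : ∀ e ∈ F, ¬ e.IsDiag := fun e he => hd e (hF he)
    obtain ⟨H, g1, g2, g3, g4, g5, g6⟩ := layer2 (by omega) D hGL hGP hT hF (fun v => (h2 v).le) hm
    refine ⟨gr G, H, gr F, g1, g6, g2, g3, g4, g5, fun v => (degree_gr hdF v).trans (h2 v),
      fun v c hcyc => H8V.five_le_gr hnt hnq c hcyc, Or.inr ?_⟩
    have h8 := conn3 (G := G ∪ es R) (by omega) (tc_mono subset_union_left hT) hN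
    rw [gr_union, gr_es] at h8
    exact h8

/-- THE ONE STATEMENT, for every graph `R` and a graph `U` of uncrossed edges (form A), from the exchange. -/
theorem mainA (ex : ∀ n : ℕ, Exch (Fin n)) {n : ℕ} (hn : 4 ≤ n) (D : SimpleDrawing n) (R U : SimpleGraph (Fin n))
    (hU : ∀ i j, U.Adj i j → ∀ k l, k ≠ l → s(i, j) ≠ s(k, l) → ∀ p ∈ D.curve i j ∩ D.curve k l,
      ∃ v, (v = i ∨ v = j) ∧ (v = k ∨ v = l) ∧ p = D.pt v) :
    ∃ G H F : SimpleGraph (Fin n), D.Plane G ∧ U ≤ G ∧ F ≤ H ∧ H ≤ G ∧ H.Connected ∧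
      (∀ v, (H.induce {w | w ≠ v}).Connected) ∧ H.edgeSet.ncard = 2 * n - 3 ∧
      (∀ v, (F.neighborSet v).ncard = 2) ∧
      (∀ (v : Fin n) (c : F.Walk v v), c.IsCycle → min n 5 ≤ c.length) ∧
      ((R ⊔ U ≤ F ∧ ∃ (v : Fin n) (c : F.Walk v v), c.IsHamiltonianCycle) ∨
        ∀ u v, ((G ⊔ R).induce {w | w ≠ u ∧ w ≠ v}).Connected) := by
  have e : ∀ G : SimpleGraph (Fin n), G ⊔ (R ⊔ U) = G ⊔ U ⊔ R := fun G => by rw [sup_assoc, sup_comm R]
  by_cases h5 : 5 ≤ n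
  · obtain ⟨G, hGL, hGP, hT, hm, h⟩ := formD8 (H8V.facts (Fin n)) (ex n) (H53P.crossT_symm (H53P.table D))
      (H98W.hd_table (H53P.table D)) (by rw [Fintype.card_fin]; omega) (H36V.es_sub (R ⊔ U))
    obtain ⟨G, H, F, k1, k2, k3, k4, k5, k6, k7, k8, k9⟩ := draw_D8 h5 D (R ⊔ U) hGL hGP hT hm h
    refine ⟨G ⊔ U, H, F, plane_uncrossed D hU k1, le_sup_right, k2, k3.trans le_sup_left, k4, k5, k6, k7,
      fun v c hc => le_trans (min_le_right _ _) (k8 v c hc), ?_⟩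
    rw [← e]
    exact k9
  · obtain ⟨G, hGL, hGP, hT, hm, h⟩ := H36V.formD7 (H53P.crossT_symm (H53P.table D))
      (H98W.hd_table (H53P.table D)) (by rw [Fintype.card_fin]; exact hn) (H36V.es_sub (R ⊔ U))
    obtain ⟨G, H, F, k1, k2, k3, k4, k5, k6, k7, k8, k9⟩ := H36V.draw_D7 hn D (R ⊔ U) hGL hGP hT hm h
    refine ⟨G ⊔ U, H, F, plane_uncrossed D hU k1, le_sup_right, k3, k2.trans le_sup_left, k4, k5, k6, k7,
      fun v c hc => le_trans (by omega) (k8 v c hc), ?_⟩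
    rw [← e]
    exact k9

end H36V
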