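import Pool.Agent.Lib.H70L.Def
import Pool.Agent.Lib.H98TF.DrawD

/-!
# H36V, file FL: consequences of `Sparse` with `2 n - 3` edges, and the form for simple drawings (form L)
-/

set_option autoImplicit false

open H53P SimpleDraw

namespace H36V

open Finset H98P H98Z H98M H63F H30F H63L H97W H85TF H98TF H70L

section abs

variable {V : Type*} [Fintype V] [DecidableEq V]

/-- At most `2 k - 2` edges inside a nonempty set. -/
theorem inside_le {H : Finset (Sym2 V)} (hS : Sparse H) (hL : H ⊆ LW univ) {X : Finset V} (hX : X.Nonempty) :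
    (H ∩ X.sym2).card + 2 ≤ 2 * X.card := by
  rcases Nat.lt_or_ge X.card 2 with h | h
  · have h1 : X.card = 1 := by
      have := card_pos.2 hX
      omega
    obtain ⟨v, rfl⟩ := card_eq_one.1 h1
    have h2 : H ∩ ({v} : Finset V).sym2 = ∅ := by
      rw [eq_empty_iff_forall_notMem]
      intro e he
      obtain ⟨h3, h4⟩ := mem_inter.1 he
      induction e using Sym2.ind with
      | _ a b =>
        rw [mk_mem_sym2_iff, mem_singleton, mem_singleton] at h4
        have h5 := hL h3
        unfold LW at h5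
        exact (mem_filter.1 h5).2 (Sym2.mk_isDiag_iff.2 (h4.1.trans h4.2.symm))
    rw [h2, card_empty, card_singleton]
  · have := hS X h
    omega

/-- `Σ e(X_i) ≤ 2 n - 2 p` for a partition into `p` classes. -/
theorem classes_le {H : Finset (Sym2 V)} (hS : Sparse H) (hL : H ⊆ LW univ) {p : ℕ} (c : V → Fin p)
    (hc : Function.Surjective c) :
    (H.filter fun e => ∃ i : Fin p, ∀ v ∈ e, c v = i).card + 2 * p ≤ 2 * Fintype.card V := by
  have h1 : (H.filter fun e => ∃ i : Fin p, ∀ v ∈ e, c v = i) ⊆
      univ.biUnion fun i : Fin p => H ∩ (univ.filter fun v => c v = i).sym2 := by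
    intro e he
    obtain ⟨h2, i, h3⟩ := mem_filter.1 he
    refine mem_biUnion.2 ⟨i, mem_univ _, mem_inter.2 ⟨h2, ?_⟩⟩
    rw [mem_sym2_iff]
    exact fun v hv => mem_filter.2 ⟨mem_univ _, h3 v hv⟩
  have h2 : (H.filter fun e => ∃ i : Fin p, ∀ v ∈ e, c v = i).card ≤
      ∑ i : Fin p, (H ∩ (univ.filter fun v => c v = i).sym2).card :=
    (card_le_card h1).trans card_biUnion_le
  have h3 : ∑ i : Fin p, ((H ∩ (univ.filter fun v => c v = i).sym2).card + 2) ≤
      ∑ i : Fin p, 2 * (univ.filter fun v => c v = i).card := by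
    refine sum_le_sum fun i _ => inside_le hS hL ?_
    obtain ⟨v, hv⟩ := hc i
    exact ⟨v, mem_filter.2 ⟨mem_univ _, hv⟩⟩
  have h4 : ∑ i : Fin p, (univ.filter fun v => c v = i).card = Fintype.card V := by
    rw [← card_univ (α := V)]
    exact (card_eq_sum_card_fiberwise fun v _ => mem_univ (c v)).symm
  rw [sum_add_distrib, ← mul_sum, h4] at h3
  simp only [sum_const, card_univ, Fintype.card_fin, smul_eq_mul] at h3
  omega

/-- Every partition into `p` classes is crossed by at least `2 p - 3` edges. -/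
theorem crossing {H : Finset (Sym2 V)} (hS : Sparse H) (hL : H ⊆ LW univ)
    (hc2 : H.card + 3 = 2 * Fintype.card V) {p : ℕ} (c : V → Fin p) (hc : Function.Surjective c) :
    2 * p ≤ (H.filter fun e => ¬ ∃ i : Fin p, ∀ v ∈ e, c v = i).card + 3 := by
  have h1 := classes_le hS hL c hc
  have h2 := card_filter_add_card_filter_not (s := H) (fun e => ∃ i : Fin p, ∀ v ∈ e, c v = i)
  omega

/-- Every set with at least two vertices outside of it meets at least `2 k` edges. -/
theorem meets {H : Finset (Sym2 V)} (hS : Sparse H) (hc2 : H.card + 3 = 2 * Fintype.card V)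
    {X : Finset V} (hX : X.card + 2 ≤ Fintype.card V) : 2 * X.card ≤ (H \ Xᶜ.sym2).card := by
  have h1 := hS Xᶜ (by rw [card_compl]; omega)
  have h2 := card_sdiff_add_card_inter H Xᶜ.sym2
  rw [card_compl] at h1
  omega

/-- Two sets without edges between them which cover all edges. -/
theorem no_disc {H : Finset (Sym2 V)} (hS : Sparse H) (hL : H ⊆ LW univ)
    (hc2 : H.card + 3 = 2 * Fintype.card V) {Z : Finset V} (hZ : Z.card ≤ 1) : ¬ Disc Zᶜ H := by
  rintro ⟨C, D, hC, hD, hCD, hun, hno⟩
  have hCZ : Disjoint C Z := by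
    rw [disjoint_left]
    intro a ha hb
    have h1 : a ∈ Zᶜ := hun ▸ mem_union_left _ ha
    exact (mem_compl.1 h1) hb
  have hDZ : Disjoint D Z := by
    rw [disjoint_left]
    intro a ha hb
    have h1 : a ∈ Zᶜ := hun ▸ mem_union_right _ ha
    exact (mem_compl.1 h1) hb
  have h1 : H ⊆ (H ∩ (C ∪ Z).sym2) ∪ (H ∩ (D ∪ Z).sym2) := by
    intro e he
    induction e using Sym2.ind with
    | _ a b =>
      have hab : ∀ v : V, v ∈ C ∨ v ∈ D ∨ v ∈ Z := by
        intro v
        by_cases hv : v ∈ Z
        · exact Or.inr (Or.inr hv)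
        · have h2 : v ∈ C ∪ D := by
            rw [hun]
            exact mem_compl.2 hv
          rcases mem_union.1 h2 with h3 | h3
          · exact Or.inl h3
          · exact Or.inr (Or.inl h3)
      rw [mem_union, mem_inter, mem_inter, mk_mem_sym2_iff, mk_mem_sym2_iff]
      simp only [mem_union]
      have h3 : ¬ (a ∈ C ∧ b ∈ D) := fun h => hno a h.1 b h.2 he
      have h4 : ¬ (b ∈ C ∧ a ∈ D) := fun h => hno b h.1 a h.2 (by rw [Sym2.eq_swap]; exact he)
      have h5 := hab a
      have h6 := hab b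
      tauto
  have h2 := (card_le_card h1).trans (card_union_le _ _)
  have h3 : C.card + D.card + Z.card = Fintype.card V := by
    rw [← card_union_of_disjoint hCD, hun, card_compl]
    have := card_le_univ Z
    omega
  have h4 := card_pos.2 hC
  have h5 := card_pos.2 hD
  rcases Nat.eq_zero_or_pos Z.card with h6 | h6
  · rw [card_eq_zero.1 h6, union_empty, union_empty] at h2
    rw [h6] at h3
    have h7 := inside_le hS hL hC
    have h8 := inside_le hS hL hD
    omega
  · have h9 : Z.card = 1 := by omega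
    have h7 := hS (C ∪ Z) (by rw [card_union_of_disjoint hCZ]; omega)
    have h8 := hS (D ∪ Z) (by rw [card_union_of_disjoint hDZ]; omega)
    rw [card_union_of_disjoint hCZ] at h7
    rw [card_union_of_disjoint hDZ] at h8
    omega

end abs

/-- FORM L for simple drawings, from the abstract form. -/
theorem draw_L {n : ℕ} (D : SimpleDrawing n) {H : Finset (Sym2 (Fin n))} (hL : H ⊆ LW univ)
    (hP : Plane (crossT (H53P.table D)) H) (hS : Sparse H) (hc2 : H.card + 3 = 2 * Fintype.card (Fin n)) :
    D.Plane (gr H) ∧ (gr H).edgeSet.ncard + 3 = 2 * n ∧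
      (∀ S : Finset (Fin n), 2 ≤ S.card → {e ∈ (gr H).edgeSet | ∀ v ∈ e, v ∈ S}.ncard + 3 ≤ 2 * S.card) ∧
      (3 ≤ n → (gr H).Connected ∧ ∀ v, ((gr H).induce {w | w ≠ v}).Connected) ∧
      ∀ (p : ℕ) (c : Fin n → Fin p), Function.Surjective c →
        2 * p ≤ {e ∈ (gr H).edgeSet | ∃ u ∈ e, ∃ v ∈ e, c u ≠ c v}.ncard + 3 := by
  have hdiag : ∀ e ∈ H, ¬ e.IsDiag := not_diag_of_LW hL
  have hE := gr_edgeSet hdiag
  refine ⟨plane_of D hP, ?_, ?_, ?_, ?_⟩
  · rw [hE, Set.ncard_coe_finset, hc2, Fintype.card_fin]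
  · intro S h2
    have h3 : {e ∈ (gr H).edgeSet | ∀ v ∈ e, v ∈ S} = ((H ∩ S.sym2 : Finset (Sym2 (Fin n))) : Set (Sym2 (Fin n))) := by
      ext e
      rw [hE]
      simp only [Set.mem_ofPred_eq, mem_coe, coe_inter, Set.mem_inter_iff, mem_sym2_iff]
    rw [h3, Set.ncard_coe_finset]
    exact hS S h2
  · intro hn
    have h1 : ¬ Disc univ H := by
      have h2 := no_disc hS hL hc2 (Z := ∅) (by simp)
      rwa [compl_empty] at h2
    refine ⟨conn_gr hn h1, fun v => ?_⟩
    have h2 : ¬ Disc (univ.erase v) H := by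
      have h3 := no_disc hS hL hc2 (Z := {v}) (by simp)
      have h4 : ({v} : Finset (Fin n))ᶜ = univ.erase v := by
        ext w
        simp
      rwa [h4] at h3
    have h6 : (univ.erase v : Finset (Fin n)).Nonempty := by
      rw [← card_pos, card_erase_of_mem (mem_univ _), card_univ, Fintype.card_fin]
      omega
    have h7 := induce_connected h6 h2
    have h8 : {w : Fin n | w ∈ (univ.erase v : Finset (Fin n))} = {w | w ≠ v} := by
      ext w
      simp
    rw [h8] at h7
    exact h7
  · intro p c hc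
    have h1 := crossing hS hL hc2 c hc
    have h2 : {e ∈ (gr H).edgeSet | ∃ u ∈ e, ∃ v ∈ e, c u ≠ c v} =
        ((H.filter fun e => ¬ ∃ i : Fin p, ∀ v ∈ e, c v = i : Finset (Sym2 (Fin n))) : Set (Sym2 (Fin n))) := by
      ext e
      rw [hE, coe_filter]
      simp only [Set.mem_ofPred_eq, mem_coe]
      refine and_congr_right fun _ => ?_
      induction e using Sym2.ind with
      | _ a b =>
        simp only [Sym2.mem_iff, forall_eq_or_imp, forall_eq, exists_eq_or_imp, exists_eq_left, ne_eq,
          not_true_eq_false, false_or, or_false, not_exists, not_and]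
        constructor
        · rintro (h | h) i h3 h4
          · exact h (h3.trans h4.symm)
          · exact h (h4.trans h3.symm)
        · intro h
          exact Or.inl fun h3 => h (c b) h3 rfl
    rw [h2, Set.ncard_coe_finset]
    convert h1

end H36V
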