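import Pool.Agent.Lib.H31S.D
import Pool.Agent.Lib.H47G5.Cv

/-!
# H36V, file PiCyc: a cycle is a fractional cycle
-/

set_option autoImplicit false
set_option linter.unusedSectionVars false

namespace H36V

open Finset H98M LD H85TF

variable {V : Type*} [Fintype V] [DecidableEq V]

/-- The weights 1 on the edges of `F`. -/
def ind (F : Finset (Sym2 V)) (u v : V) : ℕ := if s(u, v) ∈ F then 1 else 0

theorem ind_symm (F : Finset (Sym2 V)) (u v : V) : ind F u v = ind F v u := by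
  unfold ind
  rw [Sym2.eq_swap]

theorem sum_ind {F : Finset (Sym2 V)} (v : V) : ∑ w, ind F v w = dg F v := by
  unfold ind dg
  rw [Finset.sum_boole, Nat.cast_id]
  refine Finset.card_bij (fun w _ => s(v, w)) ?_ ?_ ?_
  · intro w hw
    exact mem_filter.2 ⟨(mem_filter.1 hw).2, Sym2.mem_mk_left _ _⟩
  · intro a _ b _ h
    rcases Sym2.eq_iff.1 h with ⟨-, h1⟩ | ⟨h1, h2⟩
    · exact h1
    · rw [h2, ← h1]
  · intro e he
    obtain ⟨h1, h2⟩ := mem_filter.1 he
    obtain ⟨w, rfl⟩ := Sym2.mem_iff_exists.1 h2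
    exact ⟨w, mem_filter.2 ⟨mem_univ _, h1⟩, rfl⟩

theorem even_inside {F : Finset (Sym2 V)} (hF : ∀ e ∈ F, ¬ e.IsDiag) (S : Finset V) :
    Even (∑ u ∈ S, ∑ v ∈ S, ind F u v) := by
  rw [← Finset.sum_product', even_iff_two_dvd, ← ZMod.natCast_eq_zero_iff, Nat.cast_sum]
  refine Finset.sum_involution (fun p _ => p.swap) ?_ ?_ ?_ ?_
  · intro p _
    rw [Prod.fst_swap, Prod.snd_swap, ind_symm F p.2 p.1]
    exact CharTwo.add_self_eq_zero _
  · intro p _ h1 h2
    apply h1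
    have h3 : p.2 = p.1 := congrArg Prod.fst h2
    have h4 : s(p.1, p.2) ∉ F := fun h => hF _ h (by rw [h3]; simp)
    unfold ind
    rw [if_neg h4]
    rfl
  · intro p hp
    rw [mem_product] at hp ⊢
    exact ⟨hp.2, hp.1⟩
  · intro p _
    exact Prod.swap_swap p

theorem pi_of_oneCyc {G : Finset (Sym2 V)} (hG : ∀ e ∈ G, ¬ e.IsDiag) {A : Finset V}
    (h : H47G5.OneCyc G A) : H31S.Pi G A := by
  obtain ⟨F, hFG, ⟨hd, hT⟩, hA⟩ := h
  have hF : ∀ e ∈ F, ¬ e.IsDiag := fun e he => hG e (hFG he)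
  refine ⟨fun u v => (ind F u v : ℝ), ⟨fun u v => by rw [ind_symm], fun u v => Nat.cast_nonneg _, fun u v huv => ?_⟩,
    fun v => ?_, fun S hS => ?_⟩
  · have h1 : s(u, v) ∉ F := fun h => huv (hFG h)
    unfold ind
    rw [if_neg h1]
    simp
  · unfold H31S.deg
    rw [← Nat.cast_sum, sum_ind]
    have h1 : dg F v ≤ 2 := by rcases hd v with h | h <;> omega
    exact_mod_cast h1
  · unfold H31S.cut
    have e1 : ∑ u ∈ S, ∑ v ∈ Sᶜ, ((ind F u v : ℕ) : ℝ) = ((∑ u ∈ S, ∑ v ∈ Sᶜ, ind F u v : ℕ) : ℝ) := by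
      push_cast
      rfl
    rw [e1]
    have h2 : ∑ u ∈ S, ∑ v ∈ S, ind F u v + ∑ u ∈ S, ∑ v ∈ Sᶜ, ind F u v = ∑ u ∈ S, dg F u := by
      rw [← Finset.sum_add_distrib]
      refine Finset.sum_congr rfl fun u _ => ?_
      rw [Finset.sum_add_sum_compl, sum_ind]
    have h3 : Even (∑ u ∈ S, dg F u) := by
      refine Finset.even_sum _ fun u _ => ?_
      rcases hd u with h | h <;> rw [h]
      · exact Even.zero
      · exact even_two
    have h4 := even_inside hF S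
    have h5 : Even (∑ u ∈ S, ∑ v ∈ Sᶜ, ind F u v) := by
      rw [← h2] at h3
      exact (Nat.even_add.1 h3).1 h4
    have h6 : ∑ u ∈ S, ∑ v ∈ Sᶜ, ind F u v ≠ 0 := by
      intro h0
      obtain ⟨⟨a, haA, haS⟩, c, hcA, hcS⟩ := hS
      refine hcS (hT S (fun p hp q hpq => ?_) a haS (by rw [hA a haA]; omega) c (by rw [hA c hcA]; omega))
      by_contra hq
      have h7 := (Finset.sum_eq_zero_iff.1 ((Finset.sum_eq_zero_iff.1 h0) p hp)) q (mem_compl.2 hq)
      unfold ind at h7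
      rw [if_pos hpq] at h7
      omega
    have h7 : 2 ≤ ∑ u ∈ S, ∑ v ∈ Sᶜ, ind F u v := by
      obtain ⟨k, hk⟩ := h5
      omega
    exact_mod_cast h7

end H36V
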