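import Pool.Agent.Lib.H36V.SubH
import Pool.Agent.Lib.H36V.PiCyc

/-!
# H36V, file SubP: the drawing level with the weights on a subgraph with exactly `2n - 3` edges
-/

set_option autoImplicit false
set_option linter.unusedSectionVars false

open H53P SimpleDraw

namespace H36V

open Finset H98P H98Z H98M H63F H30F H63L H97W H85TF LD H77D4 H98TF

section

variable {V : Type} [Fintype V] [DecidableEq V]

/-- A graph with a fractional Hamiltonian cycle is 2-connected. -/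
theorem tc_of_pi {G : Finset (Sym2 V)} (hG : ∀ e ∈ G, ¬ e.IsDiag)
    (h : H31S.Pi G univ) : TC G := by
  obtain ⟨x, hx⟩ := h
  have h0 : ∀ v, x v v = 0 := fun v => hx.wt.supp v v fun h1 => hG _ h1 (by simp)
  refine ⟨?_, fun z => ?_⟩
  · rintro ⟨C, D, ⟨c, hc⟩, ⟨d, hd⟩, hCD, hun, hno⟩
    have h1 := hx.sep C ⟨⟨c, mem_univ c, hc⟩, d, mem_univ d, fun h => disjoint_left.1 hCD h hd⟩
    have h2 : H31S.cut x C = 0 := by
      unfold H31S.cut
      refine sum_eq_zero fun u hu => sum_eq_zero fun v hv => hx.wt.supp u v (hno u hu v ?_)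
      have h3 : v ∈ C ∪ D := by rw [hun]; exact mem_univ v
      exact (mem_union.1 h3).resolve_left (mem_compl.1 hv)
    linarith
  · rintro ⟨C, D, ⟨c, hc⟩, ⟨d, hd⟩, hCD, hun, hno⟩
    have hz : z ∉ C ∧ z ∉ D := by
      have h3 : z ∉ C ∪ D := by rw [hun]; exact notMem_erase z _
      rw [mem_union, not_or] at h3
      exact h3
    have key : ∀ A B : Finset V, A ∪ B = univ.erase z → z ∉ A → (∀ a ∈ A, ∀ b ∈ B, s(a, b) ∉ G) → (∃ a, a ∈ A) →
        2 ≤ ∑ u ∈ A, x z u := by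
      rintro A B hAB hzA hno ⟨a, ha⟩
      have h1 := hx.sep A ⟨⟨a, mem_univ a, ha⟩, z, mem_univ z, hzA⟩
      refine h1.trans (le_of_eq ?_)
      unfold H31S.cut
      refine sum_congr rfl fun u hu => ?_
      rw [sum_eq_single z]
      · exact hx.wt.symm u z
      · intro v hv hvz
        refine hx.wt.supp u v (hno u hu v ?_)
        have h3 : v ∈ A ∪ B := by rw [hAB]; exact mem_erase.2 ⟨hvz, mem_univ v⟩
        exact (mem_union.1 h3).resolve_left (mem_compl.1 hv)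
      · exact fun h => absurd (mem_compl.2 hzA) h
    have h1 := key C D hun hz.1 hno ⟨c, hc⟩
    have h2 := key D C (by rw [union_comm]; exact hun) hz.2 (fun a ha b hb => by
      rw [Sym2.eq_swap]
      exact hno b hb a ha) ⟨d, hd⟩
    have h3 := hx.deg_le z
    have h4 : ∑ u ∈ C ∪ D, x z u ≤ H31S.deg x z := by
      unfold H31S.deg
      exact sum_le_sum_of_subset_of_nonneg (subset_univ _) fun i _ _ => hx.wt.nn z i
    rw [sum_union hCD] at h4
    linarith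

/-- A Hamiltonian cycle gives a fractional one. -/
theorem pi_of_ham {F H : Finset (Sym2 V)} (hFH : F ⊆ H) (hH : ∀ e ∈ H, ¬ e.IsDiag) (hc : ¬ Disc univ F)
    (h2 : ∀ v, dg F v = 2) : H31S.Pi H univ := by
  refine pi_of_oneCyc hH ⟨F, hFH, ⟨fun v => Or.inr (h2 v), fun T hT x hx _ y _ => ?_⟩, fun v _ => h2 v⟩
  by_contra hy
  exact hc ⟨T, univ \ T, ⟨x, hx⟩, ⟨y, mem_sdiff.2 ⟨mem_univ y, hy⟩⟩, disjoint_sdiff, by simp,
    fun a ha b hb hab => (mem_sdiff.1 hb).2 (hT a ha b hab)⟩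

end

/-- Connectivity of the simple graph of a 2-connected edge set. -/
theorem conn_of_tc {n : ℕ} (hn : 3 ≤ n) {H : Finset (Sym2 (Fin n))} (hd : ∀ e ∈ H, ¬ e.IsDiag) (hT : TC H) :
    (gr H).Connected ∧ (∀ v, ((gr H).induce {w | w ≠ v}).Connected) ∧ (gr H).edgeSet.ncard = H.card := by
  refine ⟨conn_gr hn hT.1, fun v => ?_, ?_⟩
  · have h6 : (univ.erase v).Nonempty := by
      rw [← card_pos, card_erase_of_mem (mem_univ _), card_univ, Fintype.card_fin]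
      omega
    have h7 := induce_connected h6 (hT.2 v)
    have h8 : {w : Fin n | w ∈ univ.erase v} = {w | w ≠ v} := by
      ext w
      simp
    rw [h8] at h7
    exact h7
  · rw [H85TF.gr_edgeSet fun e he => hd e he, Set.ncard_coe_finset]

/-- THE DRAWING LEVEL: `x` on `H` with exactly `2n - 3` edges, from the lemma on extreme points. -/
theorem draw_subP {n : ℕ} (hn : 3 ≤ n)
    (c : CovP (H31S.Pi : Finset (Sym2 (Fin n)) → Finset (Fin n) → Prop))
    (ext : ∀ G : Finset (Sym2 (Fin n)), G ⊆ LW univ → H31S.Pi G univ → 2 * n ≤ G.card + 3 →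
      ∃ H ⊆ G, H.card = 2 * n - 3 ∧ H31S.Pi H univ) (D : SimpleDrawing n)
    (R U : SimpleGraph (Fin n))
    (hU : ∀ i j, U.Adj i j → ∀ k l, k ≠ l → s(i, j) ≠ s(k, l) → ∀ p ∈ D.curve i j ∩ D.curve k l,
      ∃ v, (v = i ∨ v = j) ∧ (v = k ∨ v = l) ∧ p = D.pt v) :
    ∃ (G H : SimpleGraph (Fin n)) (x : Fin n → Fin n → ℝ), D.Plane G ∧ U ≤ G ∧ H ≤ G ∧ H.Connected ∧
      (∀ v, (H.induce {w | w ≠ v}).Connected) ∧ H.edgeSet.ncard = 2 * n - 3 ∧
      (∀ u v, x u v = x v u) ∧ (∀ u v, 0 ≤ x u v) ∧ (∀ u v, ¬ H.Adj u v → x u v = 0) ∧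
      (∀ v, ∑ w, x v w = 2) ∧
      (∀ S : Finset (Fin n), S.Nonempty → S ≠ univ → 2 ≤ ∑ u ∈ S, ∑ v ∈ Sᶜ, x u v) ∧
      ((∃ F : SimpleGraph (Fin n), F ≤ H ∧ R ⊔ U ≤ F ∧ (∀ v, (F.neighborSet v).ncard = 2) ∧
        ∃ (v : Fin n) (c : F.Walk v v), c.IsHamiltonianCycle) ∨
        ∀ u v, ((G ⊔ R).induce {w | w ≠ u ∧ w ≠ v}).Connected) := by
  obtain ⟨G, hGL, hGP, hT, hm, hPi, h⟩ := c.form (H53P.crossT_symm (H53P.table D))
    (H98W.hd_table (H53P.table D)) (by rw [Fintype.card_fin]; exact hn) (H36V.es_sub (R ⊔ U))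
  have hUL := H36V.es_sub U
  have hd := not_diag_of_LW hGL
  have hP : D.Plane (gr G ⊔ U) := plane_uncrossed D hU (plane_of D hGP)
  rcases h with ⟨F, hF, hRF, hc, h2⟩ | hN
  · have hdF : ∀ e ∈ F, ¬ e.IsDiag := fun e he => hd e (hF he)
    obtain ⟨H, h1, h2', h3, h4, h5⟩ := H63T.trim_exact G F hd hF (fun v => (h2 v).le) hT.1 hT.2
      (by rw [Fintype.card_fin]; omega) hm
    rw [Fintype.card_fin] at h5
    have hdH : ∀ e ∈ H, ¬ e.IsDiag := fun e he => hd e (h2' he)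
    have hPH : H31S.Pi H univ := pi_of_ham h1 hdH hc h2
    obtain ⟨k1, k2, k3⟩ := conn_of_tc hn hdH ⟨h3, h4⟩
    obtain ⟨x, hx⟩ := hPH
    obtain ⟨a1, a2, a3⟩ := feas_univ hn (h2'.trans hGL) hx
    refine ⟨gr G ⊔ U, gr H, x, hP, le_sup_right, (gr_mono h2').trans le_sup_left, k1, k2, k3.trans h5, hx.wt.symm,
      hx.wt.nn, a1, a2, a3, Or.inl ⟨gr F, gr_mono h1, ?_, fun v => (degree_gr hdF v).trans (h2 v), ⟨0, by omega⟩,
        ham_gr (by omega) hdF hc h2 _⟩⟩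
    rw [← gr_es (R ⊔ U)]
    exact gr_mono hRF
  · obtain ⟨H, h1, h5, hPH⟩ := ext G hGL hPi (by rw [Fintype.card_fin] at hm; exact hm)
    have hdH : ∀ e ∈ H, ¬ e.IsDiag := fun e he => hd e (h1 he)
    obtain ⟨k1, k2, k3⟩ := conn_of_tc hn hdH (tc_of_pi hdH hPH)
    obtain ⟨x, hx⟩ := hPH
    obtain ⟨a1, a2, a3⟩ := feas_univ hn (h1.trans hGL) hx
    refine ⟨gr G ⊔ U, gr H, x, hP, le_sup_right, (gr_mono h1).trans le_sup_left, k1, k2, k3.trans h5, hx.wt.symm,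
      hx.wt.nn, a1, a2, a3, Or.inr ?_⟩
    have h8 := conn3 (G := G ∪ es (R ⊔ U)) (by omega) (tc_mono subset_union_left hT) hN
    rw [gr_union, gr_es] at h8
    rw [sup_assoc, sup_comm U R]
    exact h8

end H36V
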