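import Pool.Agent.Lib.H36V.CovPi
import Pool.Agent.Lib.H36V.SubP
import Pool.Agent.Lib.H9X.Ext

/-!
# H36V, file FPlus: fractional Hamiltonian cycles on plane subdrawings with exactly `2n - 3` edges, complete
-/

set_option autoImplicit false
set_option linter.unusedSectionVars false

open H53P SimpleDraw

namespace H36V

open Finset H98P H98Z H98M H63F H30F H63L H97W H85TF LD H77D4 H98TF

/-- The weights can be put on a subgraph with exactly `2n - 3` edges. -/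
theorem ext_pi {n : ℕ} (hn : 3 ≤ n) (G : Finset (Sym2 (Fin n))) (hGL : G ⊆ LW univ) (h : H31S.Pi G univ)
    (hm : 2 * n ≤ G.card + 3) : ∃ H ⊆ G, H.card = 2 * n - 3 ∧ H31S.Pi H univ := by
  obtain ⟨x, hx⟩ := h
  obtain ⟨a1, a2, a3⟩ := feas_univ hn hGL hx
  have hd := not_diag_of_LW hGL
  have hc : (gr G).edgeSet.ncard = G.card := by
    rw [H85TF.gr_edgeSet fun e he => hd e he, Set.ncard_coe_finset]
  obtain ⟨H, h1, h2, z, b1, b2, b3, b4, b5⟩ := H9X.exists_sub (by rw [Fintype.card_fin]; omega) (gr G)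
    (by rw [Fintype.card_fin, hc]; omega) x hx.wt.symm hx.wt.nn a1 a2 a3
  rw [Fintype.card_fin] at h2
  have hes : ∀ e, e ∈ es H ↔ e ∈ H.edgeSet := fun e => mem_es
  refine ⟨es H, fun e he => ?_, ?_, z, ⟨⟨b1, b2, fun u v huv => b3 u v fun h => huv ?_⟩, fun v => (b4 v).le,
    fun S ⟨⟨a, _, ha⟩, b, _, hb⟩ => b5 S ⟨a, ha⟩ ?_⟩⟩
  · have h3 : e ∈ (gr G).edgeSet := SimpleGraph.edgeSet_mono h1 ((hes e).1 he)
    rw [H85TF.gr_edgeSet fun e he => hd e he] at h3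
    exact_mod_cast h3
  · rw [← h2, ← Set.ncard_coe_finset]
    congr 1
    ext e
    rw [mem_coe, hes]
  · rw [hes, SimpleGraph.mem_edgeSet]
    exact h
  · rintro rfl
    exact hb (mem_univ b)

/-- FORM F+: a plane graph `G` with all edges of the graph `U` of uncrossed edges, a subgraph `H` with exactly `2n - 3`
edges and a fractional Hamiltonian cycle `x` of `H`, and a Hamiltonian cycle of `H` through `R` and `U`, or `G ⊔ R` is
3-connected. -/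
theorem fplus {n : ℕ} (hn : 3 ≤ n) (D : SimpleDrawing n) (R U : SimpleGraph (Fin n))
    (hU : ∀ i j, U.Adj i j → ∀ k l, k ≠ l → s(i, j) ≠ s(k, l) → ∀ p ∈ D.curve i j ∩ D.curve k l,
      ∃ v, (v = i ∨ v = j) ∧ (v = k ∨ v = l) ∧ p = D.pt v) :
    ∃ (G H : SimpleGraph (Fin n)) (x : Fin n → Fin n → ℝ), D.Plane G ∧ U ≤ G ∧ H ≤ G ∧ H.Connected ∧
      (∀ v, (H.induce {w | w ≠ v}).Connected) ∧ H.edgeSet.ncard = 2 * n - 3 ∧
      (∀ u v, x u v = x v u) ∧ (∀ u v, 0 ≤ x u v) ∧ (∀ u v, ¬ H.Adj u v → x u v = 0) ∧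
      (∀ v, ∑ w, x v w = 2) ∧
      (∀ S : Finset (Fin n), S.Nonempty → S ≠ univ → 2 ≤ ∑ u ∈ S, ∑ v ∈ Sᶜ, x u v) ∧
      ((∃ F : SimpleGraph (Fin n), F ≤ H ∧ R ⊔ U ≤ F ∧ (∀ v, (F.neighborSet v).ncard = 2) ∧
        ∃ (v : Fin n) (c : F.Walk v v), c.IsHamiltonianCycle) ∨
        ∀ u v, ((G ⊔ R).induce {w | w ≠ u ∧ w ≠ v}).Connected) :=
  draw_subP hn (cov_pi (Fin n)) (fun G hGL h hm => ext_pi hn G hGL h hm) D R U hU

end H36V
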