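import Pool.Agent.Lib.H36V.Fun7
import Pool.Agent.Lib.H36V.Cor7
import Pool.Agent.Lib.H8V.CF

/-!
# H36V, file Fun8: the functor step relative to `R` with the 2-factor inside the plane graph, cycles of length at least
five
-/

set_option autoImplicit false
set_option linter.unusedSectionVars false

open H53P SimpleDraw

namespace H36V

open Finset H98P H98Z H98M H63F H30F H63L H97W H85TF LD H77D4 H98TF H47G5

/-- The covering predicate: cycles of length at least five, or one single cycle. -/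
def K5 {V : Type} [Fintype V] [DecidableEq V] (G : Finset (Sym2 V)) (Y W : Finset V) : Prop := Cv G (W ∩ Y)

theorem kp5 {V : Type} [Fintype V] [DecidableEq V] (cf : CycFacts V) :
    KP (K5 : Finset (Sym2 V) → Finset V → Finset V → Prop) where
  sub hW h := cv_dn _ _ _ (inter_subset_inter_right hW) h
  mono hG h := cv_mono _ _ _ hG h
  two := by
    intro G Y W hT h2
    by_contra h
    exact uc_two cf hT h2 (UC.base h)
  cyc := by
    intro G Y W hT h2
    by_contra h
    exact uc_cycle cf hT h2 (UC.base h)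
  redn := by
    intro G Y W x y P Q hT hs hW h
    have h2 : W ∩ (Y \ Q) = W ∩ Y := by
      ext w
      simp only [mem_inter, mem_sdiff]
      exact ⟨fun h3 => ⟨h3.1, h3.2.1⟩, fun h3 => ⟨h3.1, h3.2, disjoint_left.1 hW h3.1⟩⟩
    unfold K5 at h ⊢
    rw [h2] at h
    exact cf.red G Y x y P Q _ hT hs h

/-- The exchange property of `Cv` in 2-connected graphs. -/
def Exch (V : Type) [Fintype V] [DecidableEq V] : Prop :=
  ∀ (G : Finset (Sym2 V)) (Y A : Finset V) (b d : V) (U : Finset V), TCY G Y → Cv G (insert b A) →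
    Cv G (insert d A) → b ∈ U → d ∈ U → ¬ Disc U G → (∀ u ∈ U, u ≠ b → u ≠ d → ¬ Cv G (insert u A)) →
    Cv G (insert b (insert d A))

/-- The base case. -/
theorem ac5 {V : Type} [Fintype V] [DecidableEq V] (cf : CycFacts V) (ex : Exch V) {G : Finset (Sym2 V)}
    {Y M : Finset V} (hT : TCY G Y) (hMY : M ⊆ Y) (hM : ¬ Disc M G) (hC : ¬ Cv G M) :
    AC (Ch fun W : Finset V => ¬ Cv G W ∧ W ⊂ M) := by
  have hne : M.Nonempty := by
    rw [nonempty_iff_ne_empty]
    rintro rfl
    exact hC (Or.inl (H8F.cov5_empty G))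
  obtain ⟨w, hw⟩ := hne
  have h1 := H96TF.ac_nf (G := G) (Pi := Cv G) (fun A B h hB => cv_dn _ _ _ h hB)
    (fun A b d U hb hd hbU hdU hU hin => ex G Y A b d U hT hb hd hbU hdU hU hin) M.card M ∅ rfl hM
    ⟨w, hw, by
      have h2 := cf.pair G Y w w hT (hMY hw) (hMY hw)
      rw [pair_eq_singleton] at h2
      exact Or.inr h2⟩ (by rw [union_empty]; exact fun h => hC h)
  refine ac_congr (fun c => ?_) h1
  have e : (fun W' : Finset V => W' ⊆ M ∧ W' ≠ M ∧ ¬ Cv G (W' ∪ ∅)) =
      fun W : Finset V => ¬ Cv G W ∧ W ⊂ M := by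
    funext W
    rw [union_empty]
    refine propext ⟨fun h => ⟨h.2.2, Finset.ssubset_iff_subset_ne.2 ⟨h.1, h.2.1⟩⟩, fun h => ⟨h.2.1, h.2.ne, h.1⟩⟩
  rw [e]

/-- The lower links for `K5`. -/
theorem L2_8 {V : Type} [Fintype V] [DecidableEq V] (cf : CycFacts V) (ex : Exch V) {E G : Finset (Sym2 V)}
    (hGE : G ⊆ E) (hG : TCY G univ) (hE : TCY E univ) {M : Finset V} (hM : ¬ Disc M G)
    (hU : U7 K5 E G univ M) :
    AC (Ch fun W : Finset V => (U7 K5 E G univ W ∨ X2 E univ W) ∧ W ⊂ M) := by
  refine l2u7 (kp5 cf) (fun E G Y M _ hG _ _ hMY hM hK => ?_) (univ : Finset V).card E G univ M rfl hGE hG hE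
    (subset_univ M) hM hU
  unfold K5 at hK
  rw [inter_eq_left.2 hMY] at hK
  refine ac_congr (fun c => ?_) (ac5 cf ex hG hMY hM hK)
  have e : (fun W : Finset V => ¬ Cv G W ∧ W ⊂ M) = fun W : Finset V => ¬ K5 G Y W ∧ W ⊂ M := by
    funext W
    refine propext (and_congr_left fun h2 => not_congr ?_)
    unfold K5
    rw [inter_eq_left.2 (h2.1.trans hMY)]
  rw [e]

/-- THE FUNCTOR STEP, relative to a graph `R`: `G` contains a Hamiltonian cycle through `R`, or `G ∪ R` is 3-connected
and all vertices are covered in `G`. -/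
theorem formD8 {V : Type} [Fintype V] [DecidableEq V] (cf : CycFacts V) (ex : Exch V)
    {cross : Sym2 V → Sym2 V → Prop} (hsymm : ∀ e f, cross e f → cross f e) (hHD : ∀ W, HD cross W)
    (h3 : 3 ≤ Fintype.card V) {R : Finset (Sym2 V)} (hR : R ⊆ LW univ) :
    ∃ G : Finset (Sym2 V), G ⊆ LW univ ∧ Plane cross G ∧ TC G ∧ 2 * Fintype.card V ≤ G.card + 3 ∧
      ((∃ F ⊆ G, R ⊆ F ∧ ¬ Disc univ F ∧ ∀ v, dg F v = 2) ∨ (NoCut2 (G ∪ R) ∧ Cv G univ)) := by
  have hV : ∃ x y : V, x ≠ y := by
    obtain ⟨x, y, h⟩ := Fintype.exists_pair_of_one_lt_card (α := V) (by omega)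
    exact ⟨x, y, h⟩
  have hK := kp5 cf
  obtain ⟨G, hGL, hGp, ⟨hT, hN⟩, hcard⟩ := exactX hsymm hHD hV
    (fun G W => Disc W G ∧ (TC G → U7 K5 (G ∪ R) G univ W ∨ X2 (G ∪ R) univ W))
    (fun G => TC G ∧ ((∃ F ⊆ G, R ⊆ F ∧ ¬ Disc univ F ∧ ∀ v, dg F v = 2) ∨
      (NoCut2 (G ∪ R) ∧ Cv G univ)))
    (fun G G' hGG _ W hW => ⟨H85TF.disc_anti hGG hW.1, fun hT =>
      (hW.2 (tc_mono hGG hT)).imp (fun h => h.anti hK (union_subset_union_left hGG) hGG)
        (fun h => h.anti (union_subset_union_left hGG))⟩)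
    (fun G W _ h => h.1)
    (fun G G' hGG _ h => ⟨tc_mono hGG h.1, h.2.imp (fun ⟨F, h1, h2⟩ => ⟨F, h1.trans hGG, h2⟩)
      (fun h => ⟨noCut2_mono (union_subset_union_left hGG) h.1, cv_mono _ _ _ hGG h.2⟩)⟩)
    (fun G hGL hno => by
      have hEL : G ∪ R ⊆ LW univ := union_subset hGL hR
      by_cases hT : TC G
      · have hTE : TC (G ∪ R) := tc_mono subset_union_left hT
        have hYE := tcy_of_tc h3 hEL hTE
        have hYG := tcy_of_tc h3 hGL hT
        have hdx : ∀ {W : Finset V}, X2 (G ∪ R) univ W → Disc W G := fun h =>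
          H85TF.disc_anti subset_union_left (disc_of_x2 h)
        by_cases hU : U7 K5 (G ∪ R) G univ univ
        · refine ac_congr (fun t => ?_) (H30D.remove_univ
            (P := fun W => U7 K5 (G ∪ R) G univ W ∨ X2 (G ∪ R) univ W) (G := G) (fun M hM hMc => ?_) (Or.inl hU))
          · constructor
            · exact ch_mono fun W hW => ⟨hW.2, fun _ => hW.1⟩
            · exact ch_mono fun W hW => ⟨hW.2 hT, hW.1⟩
          · exact L2_8 cf ex subset_union_left hYG hYE hMc (hM.resolve_right fun h => hMc (hdx h))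
        · have hU' : ∀ W, ¬ U7 K5 (G ∪ R) G univ W := fun W h => hU (h.up hK (subset_univ W))
          have hcov : Cv G univ := by
            by_contra h
            refine hU (U7.base fun h6 => h ?_)
            unfold K5 at h6
            rwa [univ_inter] at h6
          have hno' : ¬ ((∃ F ⊆ G, R ⊆ F ∧ ¬ Disc univ F ∧ ∀ v, dg F v = 2) ∨
              (NoCut2 (G ∪ R) ∧ Cv G univ)) := fun h => hno ⟨hT, h⟩
          rw [not_or, not_and] at hno'
          have hsep : ∃ x y P Q, Sep (G ∪ R) univ x y P Q := by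
            by_contra hcon
            push Not at hcon
            exact hno'.2 (noCut2_of_noSep hcon) hcov
          have hdeg : ¬ ∀ v, dg (G ∪ R) v = 2 := fun h => by
            have h5 := eq_of_two subset_union_left hYG hYE (fun v _ => h v)
            exact hno'.1 ⟨G, Subset.rfl, by
              intro e he
              rw [h5]
              exact mem_union_right _ he, hT.1, fun v => by rw [h5]; exact h v⟩
          refine ac_congr (fun t => ?_) (H36R.L1_4 (G ∪ R) hEL hYE hsep hdeg)
          constructor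
          · exact ch_mono fun W hW => ⟨hdx hW, fun _ => Or.inr hW⟩
          · exact ch_mono fun W hW => (hW.2 hT).resolve_left (hU' W)
      · refine ac_congr (fun t => ?_) (H30D.ac_disc G (by
          by_contra hcon
          rw [not_or, not_exists] at hcon
          exact hT hcon))
        constructor
        · exact ch_mono fun W hW => ⟨hW, fun h => absurd h hT⟩
        · exact ch_mono fun W hW => hW.1)
  exact ⟨G, hGL, hGp, hT, hcard, hN⟩

end H36V
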