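import Pool.Agent.Lib.H36V.Fun7
import Pool.Agent.Lib.H36V.Cor7
import Pool.Agent.Lib.H98W.FIN

/-!
# H36V, file FunK: the functor step relative to `R` for an arbitrary covering predicate, and the drawing level
-/

set_option autoImplicit false
set_option linter.unusedSectionVars false

open H53P SimpleDraw

namespace H36V

open Finset H98P H98Z H98M H63F H30F H63L H97W H85TF LD H77D4 H98TF

/-- The facts on a covering predicate `Pi G A` in 2-connected graphs `(G, Y)`. -/
structure CovP {V : Type} [Fintype V] [DecidableEq V] (Pi : Finset (Sym2 V) → Finset V → Prop) : Prop where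
  sub : ∀ {G : Finset (Sym2 V)} {A B : Finset V}, A ⊆ B → Pi G B → Pi G A
  mono : ∀ {G G' : Finset (Sym2 V)} {A : Finset V}, G ⊆ G' → Pi G A → Pi G' A
  two : ∀ {G : Finset (Sym2 V)} {Y A : Finset V}, TCY G Y → A ⊆ Y → A.card ≤ 2 → Pi G A
  cyc : ∀ {G : Finset (Sym2 V)} {Y : Finset V}, TCY G Y → (∀ v ∈ Y, dg G v = 2) → Pi G Y
  redn : ∀ {G : Finset (Sym2 V)} {Y A : Finset V} {x y : V} {P Q : Finset V}, TCY G Y → Sep G Y x y P Q →
    A ⊆ Y \ Q → Pi (red G Y x y Q) A → Pi G A
  exch : ∀ {G : Finset (Sym2 V)} {Y A U : Finset V} {b d : V}, TCY G Y → Pi G (insert b A) →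
    Pi G (insert d A) → b ∈ U → d ∈ U → ¬ Disc U G → (∀ u ∈ U, u ≠ b → u ≠ d → ¬ Pi G (insert u A)) →
    Pi G (insert b (insert d A))

section

variable {V : Type} [Fintype V] [DecidableEq V] {Pi : Finset (Sym2 V) → Finset V → Prop}

theorem CovP.kp (c : CovP Pi) : KP (fun (G : Finset (Sym2 V)) (Y W : Finset V) => Pi G (W ∩ Y)) where
  sub hW h := c.sub (inter_subset_inter_right hW) h
  mono hG h := c.mono hG h
  two hT h2 := c.two hT inter_subset_right h2
  cyc hT h2 := c.sub inter_subset_right (c.cyc hT h2)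
  redn := by
    intro G Y W x y P Q hT hs hW h
    have h2 : W ∩ (Y \ Q) = W ∩ Y := by
      ext w
      simp only [mem_inter, mem_sdiff]
      exact ⟨fun h3 => ⟨h3.1, h3.2.1⟩, fun h3 => ⟨h3.1, h3.2, disjoint_left.1 hW h3.1⟩⟩
    rw [← h2]
    exact c.redn hT hs inter_subset_right h

/-- The base case. -/
theorem CovP.ac (c : CovP Pi) {G : Finset (Sym2 V)} {Y M : Finset V} (hT : TCY G Y) (hMY : M ⊆ Y)
    (hM : ¬ Disc M G) (hC : ¬ Pi G M) : AC (Ch fun W : Finset V => ¬ Pi G W ∧ W ⊂ M) := by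
  have hne : M.Nonempty := by
    rw [nonempty_iff_ne_empty]
    rintro rfl
    exact hC (c.two hT (empty_subset _) (by simp))
  obtain ⟨w, hw⟩ := hne
  have h1 := H96TF.ac_nf (G := G) (Pi := Pi G) (fun A B h hB => c.sub h hB)
    (fun A b d U hb hd hbU hdU hU hin => c.exch hT hb hd hbU hdU hU hin) M.card M ∅ rfl hM
    ⟨w, hw, c.two hT (by
      intro a ha
      rw [mem_insert] at ha
      rcases ha with rfl | ha
      · exact hMY hw
      · exact absurd ha (notMem_empty a)) (by simp)⟩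
    (by rw [union_empty]; exact fun h => hC h)
  refine ac_congr (fun c => ?_) h1
  have e : (fun W' : Finset V => W' ⊆ M ∧ W' ≠ M ∧ ¬ Pi G (W' ∪ ∅)) =
      fun W : Finset V => ¬ Pi G W ∧ W ⊂ M := by
    funext W
    rw [union_empty]
    refine propext ⟨fun h => ⟨h.2.2, Finset.ssubset_iff_subset_ne.2 ⟨h.1, h.2.1⟩⟩, fun h => ⟨h.2.1, h.2.ne, h.1⟩⟩
  rw [e]

/-- The lower links. -/
theorem CovP.links (c : CovP Pi) {E G : Finset (Sym2 V)} (hGE : G ⊆ E) (hG : TCY G univ) (hE : TCY E univ)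
    {M : Finset V} (hM : ¬ Disc M G)
    (hU : U7 (fun (G : Finset (Sym2 V)) (Y W : Finset V) => Pi G (W ∩ Y)) E G univ M) :
    AC (Ch fun W : Finset V =>
      (U7 (fun (G : Finset (Sym2 V)) (Y W : Finset V) => Pi G (W ∩ Y)) E G univ W ∨ X2 E univ W) ∧ W ⊂ M) := by
  refine l2u7 c.kp (fun E G Y M _ hG _ _ hMY hM hK => ?_) (univ : Finset V).card E G univ M rfl hGE hG hE
    (subset_univ M) hM hU
  rw [inter_eq_left.2 hMY] at hK
  refine ac_congr (fun t => ?_) (c.ac hG hMY hM hK)
  have e : (fun W : Finset V => ¬ Pi G W ∧ W ⊂ M) = fun W : Finset V => ¬ Pi G (W ∩ Y) ∧ W ⊂ M := by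
    funext W
    refine propext (and_congr_left fun h2 => not_congr ?_)
    rw [inter_eq_left.2 (h2.1.trans hMY)]
  rw [e]

/-- THE FUNCTOR STEP for a covering predicate, relative to a graph `R`: all vertices are covered in `G`, and `G` contains
a Hamiltonian cycle through `R` or `G ∪ R` is 3-connected. -/
theorem CovP.form (c : CovP Pi) {cross : Sym2 V → Sym2 V → Prop} (hsymm : ∀ e f, cross e f → cross f e)
    (hHD : ∀ W, HD cross W) (h3 : 3 ≤ Fintype.card V) {R : Finset (Sym2 V)} (hR : R ⊆ LW univ) :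
    ∃ G : Finset (Sym2 V), G ⊆ LW univ ∧ Plane cross G ∧ TC G ∧ 2 * Fintype.card V ≤ G.card + 3 ∧ Pi G univ ∧
      ((∃ F ⊆ G, R ⊆ F ∧ ¬ Disc univ F ∧ ∀ v, dg F v = 2) ∨ NoCut2 (G ∪ R)) := by
  have hV : ∃ x y : V, x ≠ y := by
    obtain ⟨x, y, h⟩ := Fintype.exists_pair_of_one_lt_card (α := V) (by omega)
    exact ⟨x, y, h⟩
  have hK := c.kp
  obtain ⟨G, hGL, hGp, ⟨hT, hN⟩, hcard⟩ := exactX hsymm hHD hV
    (fun G W => Disc W G ∧ (TC G →
      U7 (fun (G : Finset (Sym2 V)) (Y W : Finset V) => Pi G (W ∩ Y)) (G ∪ R) G univ W ∨ X2 (G ∪ R) univ W))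
    (fun G => TC G ∧ Pi G univ ∧ ((∃ F ⊆ G, R ⊆ F ∧ ¬ Disc univ F ∧ ∀ v, dg F v = 2) ∨ NoCut2 (G ∪ R)))
    (fun G G' hGG _ W hW => ⟨H85TF.disc_anti hGG hW.1, fun hT =>
      (hW.2 (tc_mono hGG hT)).imp (fun h => h.anti hK (union_subset_union_left hGG) hGG)
        (fun h => h.anti (union_subset_union_left hGG))⟩)
    (fun G W _ h => h.1)
    (fun G G' hGG _ h => ⟨tc_mono hGG h.1, c.mono hGG h.2.1, h.2.2.imp (fun ⟨F, h1, h2⟩ => ⟨F, h1.trans hGG, h2⟩)
      (fun h => noCut2_mono (union_subset_union_left hGG) h)⟩)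
    (fun G hGL hno => by
      have hEL : G ∪ R ⊆ LW univ := union_subset hGL hR
      by_cases hT : TC G
      · have hTE : TC (G ∪ R) := tc_mono subset_union_left hT
        have hYE := tcy_of_tc h3 hEL hTE
        have hYG := tcy_of_tc h3 hGL hT
        have hdx : ∀ {W : Finset V}, X2 (G ∪ R) univ W → Disc W G := fun h =>
          H85TF.disc_anti subset_union_left (disc_of_x2 h)
        by_cases hU : U7 (fun (G : Finset (Sym2 V)) (Y W : Finset V) => Pi G (W ∩ Y)) (G ∪ R) G univ univ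
        · refine ac_congr (fun t => ?_) (H30D.remove_univ
            (P := fun W => U7 (fun (G : Finset (Sym2 V)) (Y W : Finset V) => Pi G (W ∩ Y)) (G ∪ R) G univ W ∨
              X2 (G ∪ R) univ W) (G := G) (fun M hM hMc => ?_) (Or.inl hU))
          · constructor
            · exact ch_mono fun W hW => ⟨hW.2, fun _ => hW.1⟩
            · exact ch_mono fun W hW => ⟨hW.2 hT, hW.1⟩
          · exact c.links subset_union_left hYG hYE hMc (hM.resolve_right fun h => hMc (hdx h))
        · have hU' : ∀ W, ¬ U7 (fun (G : Finset (Sym2 V)) (Y W : Finset V) => Pi G (W ∩ Y)) (G ∪ R) G univ W :=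
            fun W h => hU (h.up hK (subset_univ W))
          have hcov : Pi G univ := by
            by_contra h
            refine hU (U7.base fun h6 => h ?_)
            rwa [univ_inter] at h6
          have hno' : ¬ ((∃ F ⊆ G, R ⊆ F ∧ ¬ Disc univ F ∧ ∀ v, dg F v = 2) ∨ NoCut2 (G ∪ R)) :=
            fun h => hno ⟨hT, hcov, h⟩
          rw [not_or] at hno'
          have hsep : ∃ x y P Q, Sep (G ∪ R) univ x y P Q := by
            by_contra hcon
            push Not at hcon
            exact hno'.2 (noCut2_of_noSep hcon)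
          have hdeg : ¬ ∀ v, dg (G ∪ R) v = 2 := fun h => by
            have h5 := eq_of_two subset_union_left hYG hYE (fun v _ => h v)
            exact hno'.1 ⟨G, Subset.rfl, by
              intro e he
              rw [h5]
              exact mem_union_right _ he, hT.1, fun v => by rw [h5]; exact h v⟩
          refine ac_congr (fun t => ?_) (H36R.L1_4 (G ∪ R) hEL hYE hsep hdeg)
          constructor
          · exact ch_mono fun W hW => ⟨hdx hW, fun _ => Or.inr hW⟩
          · exact ch_mono fun W hW => (hW.2 hT).resolve_left (hU' W)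
      · refine ac_congr (fun t => ?_) (H30D.ac_disc G (by
          by_contra hcon
          rw [not_or, not_exists] at hcon
          exact hT hcon))
        constructor
        · exact ch_mono fun W hW => ⟨hW, fun h => absurd h hT⟩
        · exact ch_mono fun W hW => hW.1)
  exact ⟨G, hGL, hGp, hT, hcard, hN⟩

end

/-- THE DRAWING LEVEL for a covering predicate: `G` is plane, contains all edges of the graph `U` of uncrossed edges, all
vertices are covered in `G`, and `G` contains a Hamiltonian cycle which contains `R` and `U`, or `G ⊔ R` is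
3-connected. -/
theorem CovP.draw {n : ℕ} {Pi : Finset (Sym2 (Fin n)) → Finset (Fin n) → Prop} (c : CovP Pi) (hn : 3 ≤ n)
    (D : SimpleDrawing n) (R U : SimpleGraph (Fin n))
    (hU : ∀ i j, U.Adj i j → ∀ k l, k ≠ l → s(i, j) ≠ s(k, l) → ∀ p ∈ D.curve i j ∩ D.curve k l,
      ∃ v, (v = i ∨ v = j) ∧ (v = k ∨ v = l) ∧ p = D.pt v) :
    ∃ G : Finset (Sym2 (Fin n)), G ⊆ LW univ ∧ D.Plane (gr G) ∧ U ≤ gr G ∧ TC G ∧ 2 * n ≤ G.card + 3 ∧ Pi G univ ∧
      ((∃ F : SimpleGraph (Fin n), F ≤ gr G ∧ R ⊔ U ≤ F ∧ (∀ v, (F.neighborSet v).ncard = 2) ∧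
        ∃ (v : Fin n) (c : F.Walk v v), c.IsHamiltonianCycle) ∨
        ∀ u v, ((gr G ⊔ R).induce {w | w ≠ u ∧ w ≠ v}).Connected) := by
  obtain ⟨G, hGL, hGP, hT, hm, hPi, h⟩ := c.form (H53P.crossT_symm (H53P.table D))
    (H98W.hd_table (H53P.table D)) (by rw [Fintype.card_fin]; exact hn) (H36V.es_sub (R ⊔ U))
  have hUL := H36V.es_sub U
  have hgr : gr (G ∪ es U) = gr G ⊔ U := by rw [gr_union, gr_es]
  refine ⟨G ∪ es U, union_subset hGL hUL, ?_, ?_, tc_mono subset_union_left hT, ?_, c.mono subset_union_left hPi, ?_⟩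
  · rw [hgr]
    exact plane_uncrossed D hU (plane_of D hGP)
  · rw [hgr]
    exact le_sup_right
  · rw [Fintype.card_fin] at hm
    have := card_le_card (subset_union_left : G ⊆ G ∪ es U)
    omega
  · rcases h with ⟨F, hF, hRF, hc, h2⟩ | hN
    · have hd := not_diag_of_LW hGL
      have hdF : ∀ e ∈ F, ¬ e.IsDiag := fun e he => hd e (hF he)
      refine Or.inl ⟨gr F, gr_mono (hF.trans subset_union_left), ?_, fun v => (degree_gr hdF v).trans (h2 v),
        ⟨0, by omega⟩, ham_gr (by omega) hdF hc h2 _⟩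
      rw [← gr_es (R ⊔ U)]
      exact gr_mono hRF
    · refine Or.inr ?_
      have h8 := conn3 (G := G ∪ es (R ⊔ U)) (by omega) (tc_mono subset_union_left hT) hN
      rw [gr_union, gr_es] at h8
      rw [hgr, sup_assoc, sup_comm U R]
      exact h8

end H36V
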