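import Pool.Agent.Lib.H36V.U7

/-!
# H36V, file L7: the lower links for the predicate `U7` of a pair of graphs `G ⊆ E`
-/

set_option autoImplicit false

namespace H36V

open Finset H98P H63F H98M H30F H85TF LD H36R

variable {V : Type} [DecidableEq V]

/-- All degrees of `E` are two: the graphs are equal. -/
theorem eq_of_two {E G : Finset (Sym2 V)} {Y : Finset V} (hGE : G ⊆ E) (hG : TCY G Y) (hE : TCY E Y)
    (h2 : ∀ v ∈ Y, dg E v = 2) : G = E := by
  refine Subset.antisymm hGE fun e he => ?_
  by_contra hcon
  induction e using Sym2.ind with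
  | _ a b =>
    have ha : a ∈ Y := hE.sub _ he a (Sym2.mem_mk_left _ _)
    have h3 := LD59.two_le_deg hG ha
    have h4 := h2 a ha
    have h5 : (G.filter fun e => a ∈ e) ⊂ (E.filter fun e => a ∈ e) := by
      refine (ssubset_iff_of_subset (filter_subset_filter _ hGE)).2
        ⟨s(a, b), mem_filter.2 ⟨he, Sym2.mem_mk_left _ _⟩, fun h => hcon (mem_filter.1 h).1⟩
    have h6 := card_lt_card h5
    unfold dg at h3 h4
    omega

/-- The lower links. -/
theorem l2u7 [Fintype V] {K : Finset (Sym2 V) → Finset V → Finset V → Prop} (hK : KP K)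
    (ac : ∀ (E G : Finset (Sym2 V)) (Y M : Finset V), G ⊆ E → TCY G Y → TCY E Y → (∀ x y P Q, ¬ Sep E Y x y P Q) →
      M ⊆ Y → ¬ Disc M G → ¬ K G Y M → AC (Ch fun W : Finset V => ¬ K G Y W ∧ W ⊂ M)) (k : ℕ) :
    ∀ (E G : Finset (Sym2 V)) (Y M : Finset V), Y.card = k → G ⊆ E → TCY G Y → TCY E Y → M ⊆ Y → ¬ Disc M G →
      U7 K E G Y M → AC (Ch fun W : Finset V => (U7 K E G Y W ∨ X2 E Y W) ∧ W ⊂ M) := by
  induction k using Nat.strong_induction_on with
  | _ k ih =>
    intro E G Y M hk hGE hG hT hMY hM hU
    have hME : ¬ Disc M E := fun h => hM (H85TF.disc_anti hGE h)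
    by_cases hsep : ∃ x y P Q, Sep E Y x y P Q
    · by_cases h2 : ∀ v ∈ Y, dg E v = 2
      · have hEG := eq_of_two hGE hG hT h2
        exact absurd hU (u7_cycle_aux hK hEG hG fun v hv => by rw [hEG]; exact h2 v hv)
      obtain ⟨x, y, P, Q, hs, hu⟩ := LD59.exists_unc hT hsep h2
      -- the reduction
      have side : ∀ (P Q W : Finset V), Sep E Y x y P Q → W ⊆ Y \ Q → U7 K E G Y W →
          U7 K (red E Y x y Q) (red G Y x y Q) (Y \ Q) W := fun P Q W hs hW h =>
        u7_side hK h hGE hG hT hs hu (disjoint_left.2 fun _ ha => (mem_sdiff.1 (hW ha)).2)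
      have hred : ∀ (P Q N : Finset V), Sep E Y x y P Q → N ⊆ Y \ Q → ¬ Disc N (red G Y x y Q) →
          U7 K E G Y N → AC (Ch fun W : Finset V => (U7 K E G Y W ∨ X2 E Y W) ∧ W ⊂ N) := by
        intro P Q N hs hN hNc hNU
        have h3 := ih (Y \ Q).card (by rw [← hk]; exact sep_card hs) (red E Y x y Q) (red G Y x y Q) (Y \ Q) N rfl
          (red_mono hGE) (LD77.tcy_red hG (hs.anti hGE)) (LD77.tcy_red hT hs) hN hNc (side P Q N hs hN hNU)
        refine ac_congr (fun c => ?_) h3
        have e : (fun W : Finset V => (U7 K (red E Y x y Q) (red G Y x y Q) (Y \ Q) W ∨ X2 (red E Y x y Q) (Y \ Q) W) ∧ W ⊂ N) =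
            fun W : Finset V => (U7 K E G Y W ∨ X2 E Y W) ∧ W ⊂ N := by
          funext W
          refine propext ⟨?_, ?_⟩
          · rintro ⟨h4 | h4, h5⟩
            · exact ⟨Or.inl (U7.step hs h4), h5⟩
            · exact ⟨Or.inr ((H30D.x2_side' hT hu hs (h5.1.trans hN)).2 h4), h5⟩
          · rintro ⟨h4 | h4, h5⟩
            · exact ⟨Or.inl (side P Q W hs (h5.1.trans hN) h4), h5⟩
            · exact ⟨Or.inr ((H30D.x2_side' hT hu hs (h5.1.trans hN)).1 h4), h5⟩
        rw [e]
      by_cases hMQ : (M ∩ Q).Nonempty
      · by_cases hMP : (M ∩ P).Nonempty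
        · -- both sides
          have hz : x ∈ M ∨ y ∈ M := by
            by_contra hcon
            push Not at hcon
            refine hME (x2_disc hT.sub ⟨x, y, P, Q, hs, hcon.1, hcon.2, ?_, ?_⟩)
            · obtain ⟨a, ha⟩ := hMP
              exact ⟨a, (mem_inter.1 ha).1, (mem_inter.1 ha).2⟩
            · obtain ⟨a, ha⟩ := hMQ
              exact ⟨a, (mem_inter.1 ha).1, (mem_inter.1 ha).2⟩
          have hYQ : P ∪ {x, y} = Y \ Q := by
            rw [sep_sub hs]
            ext v
            simp only [mem_union, mem_insert, mem_singleton]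
            tauto
          have hYP : Q ∪ {x, y} = Y \ P := by
            rw [sep_sub hs.symm]
            ext v
            simp only [mem_union, mem_insert, mem_singleton]
            tauto
          refine H30D.step_i (P := fun W => U7 K E G Y W ∨ X2 E Y W) (M := M) (Cc := P) (Dd := Q)
            (Z := {x, y}) hs.dis ?_ ?_ ?_ hMP hMQ ?_ ?_ ?_ ?_ ?_ ?_ ?_
          · rw [disjoint_left]
            intro a ha hb
            simp only [mem_insert, mem_singleton] at hb
            rcases hb with rfl | rfl
            · exact hs.xP ha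
            · exact hs.yP ha
          · rw [disjoint_left]
            intro a ha hb
            simp only [mem_insert, mem_singleton] at hb
            rcases hb with rfl | rfl
            · exact hs.xQ ha
            · exact hs.yQ ha
          · intro a ha
            have h1 := (sep_mem hs a).1 (hMY ha)
            simp only [mem_union, mem_insert, mem_singleton]
            tauto
          · rcases hz with h1 | h1
            · exact ⟨x, mem_inter.2 ⟨h1, by simp⟩⟩
            · exact ⟨y, mem_inter.2 ⟨h1, by simp⟩⟩
          · intro W _ hWZ hWP hWQ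
            rw [disjoint_left] at hWZ
            refine Or.inr ⟨x, y, P, Q, hs, fun h => hWZ h (by simp), fun h => hWZ h (by simp), ?_, ?_⟩
            · obtain ⟨a, ha⟩ := hWP
              exact ⟨a, (mem_inter.1 ha).1, (mem_inter.1 ha).2⟩
            · obtain ⟨a, ha⟩ := hWQ
              exact ⟨a, (mem_inter.1 ha).1, (mem_inter.1 ha).2⟩
          · rintro W hW (h1 | h1)
            · refine u7_two hK hGE hG ?_ h1
              exact (card_le_card (inter_subset_left.trans hW)).trans card_le_two
            · exact unc_pair hu hW h1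
          · intro W hWM hW hPW B hB
            rcases hPW with h1 | h1
            · exact Or.inl (h1.up hK subset_union_left)
            · exact Or.inr (H30D.x2_add' hT hu hs (by rw [← hYQ]; exact hW)
                (hB.trans inter_subset_right) h1)
          · intro W hWM hW hPW B hB
            rcases hPW with h1 | h1
            · exact Or.inl (h1.up hK subset_union_left)
            · exact Or.inr (H30D.x2_add' hT hu hs.symm (by rw [← hYP]; exact hW)
                (hB.trans inter_subset_right) h1)
          · intro hP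
            rw [hYQ] at hP ⊢
            have hc := red_conn' (hs.anti hGE) hMY hM hMQ hz
            refine hred P Q _ hs inter_subset_right hc ?_
            rcases hP with h1 | h1
            · exact h1
            · exact absurd (H85TF.disc_anti (red_mono hGE) (x2_disc (LD77.tcy_red hT hs).sub
                ((H30D.x2_side' hT hu hs inter_subset_right).1 h1))) hc
          · intro hP
            rw [hYP] at hP ⊢
            have hc := red_conn' (hs.anti hGE).symm hMY hM hMP hz
            refine hred Q P _ hs.symm inter_subset_right hc ?_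
            rcases hP with h1 | h1
            · exact h1
            · exact absurd (H85TF.disc_anti (red_mono hGE) (x2_disc (LD77.tcy_red hT hs.symm).sub
                ((H30D.x2_side' hT hu hs.symm inter_subset_right).1 h1))) hc
        · -- inside `Y \ P`
          have hN : M ⊆ Y \ P := fun a ha => mem_sdiff.2 ⟨hMY ha, fun h =>
            hMP ⟨a, mem_inter.2 ⟨ha, h⟩⟩⟩
          exact hred Q P M hs.symm hN (red_conn hN hM) hU
      · have hN : M ⊆ Y \ Q := fun a ha => mem_sdiff.2 ⟨hMY ha, fun h =>
          hMQ ⟨a, mem_inter.2 ⟨ha, h⟩⟩⟩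
        exact hred P Q M hs hN (red_conn hN hM) hU
    · -- no separation
      have hno : ∀ x y P Q, ¬ Sep E Y x y P Q := fun x y P Q h => hsep ⟨x, y, P, Q, h⟩
      have hiff : ∀ W, U7 K E G Y W ↔ ¬ K G Y W := fun W => ⟨u7_noSep hno, U7.base⟩
      have h1 := ac E G Y M hGE hG hT hno hMY hM ((hiff M).1 hU)
      refine ac_congr (fun c => ?_) h1
      have e : (fun W : Finset V => ¬ K G Y W ∧ W ⊂ M) =
          fun W : Finset V => (U7 K E G Y W ∨ X2 E Y W) ∧ W ⊂ M := by
        funext W
        refine propext ⟨?_, ?_⟩
        · rintro ⟨h2, h3⟩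
          exact ⟨Or.inl ((hiff W).2 h2), h3⟩
        · rintro ⟨h2 | h2, h3⟩
          · exact ⟨(hiff W).1 h2, h3⟩
          · obtain ⟨x, y, P, Q, hs, -⟩ := h2
            exact absurd hs (hno x y P Q)
      rw [e]

end H36V
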