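import Pool.Agent.Lib.H36V.FunK
import Pool.Agent.Lib.H31S.D

/-!
# H36V, file Sub: the drawing level for fractional Hamiltonian cycles (subtour polytope)
-/

set_option autoImplicit false
set_option linter.unusedSectionVars false

open H53P SimpleDraw

namespace H36V

open Finset H98P H98Z H98M H63F H30F H63L H97W H85TF LD H77D4 H98TF

/-- A plane graph `G` with a fractional Hamiltonian cycle `x`, and a Hamiltonian cycle through `R` and `U` or `G ⊔ R`
3-connected, from the facts on the covering predicate. -/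
theorem draw_sub {n : ℕ} (hn : 3 ≤ n)
    (c : CovP (H31S.Pi : Finset (Sym2 (Fin n)) → Finset (Fin n) → Prop)) (D : SimpleDrawing n)
    (R U : SimpleGraph (Fin n))
    (hU : ∀ i j, U.Adj i j → ∀ k l, k ≠ l → s(i, j) ≠ s(k, l) → ∀ p ∈ D.curve i j ∩ D.curve k l,
      ∃ v, (v = i ∨ v = j) ∧ (v = k ∨ v = l) ∧ p = D.pt v) :
    ∃ (G : SimpleGraph (Fin n)) (x : Fin n → Fin n → ℝ), D.Plane G ∧ U ≤ G ∧ 2 * n ≤ G.edgeSet.ncard + 3 ∧
      (∀ u v, x u v = x v u) ∧ (∀ u v, 0 ≤ x u v) ∧ (∀ u v, ¬ G.Adj u v → x u v = 0) ∧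
      (∀ v, ∑ w, x v w = 2) ∧
      (∀ S : Finset (Fin n), S.Nonempty → S ≠ univ → 2 ≤ ∑ u ∈ S, ∑ v ∈ Sᶜ, x u v) ∧
      ((∃ F : SimpleGraph (Fin n), F ≤ G ∧ R ⊔ U ≤ F ∧ (∀ v, (F.neighborSet v).ncard = 2) ∧
        ∃ (v : Fin n) (c : F.Walk v v), c.IsHamiltonianCycle) ∨
        ∀ u v, ((G ⊔ R).induce {w | w ≠ u ∧ w ≠ v}).Connected) := by
  obtain ⟨G, hGL, hP, hUG, hT, hm, ⟨x, hx⟩, h⟩ := c.draw hn D R U hU
  have hd := not_diag_of_LW hGL
  have hcut : ∀ S : Finset (Fin n), S.Nonempty → S ≠ univ → 2 ≤ H31S.cut x S := by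
    intro S hS hne
    refine hx.sep S ⟨?_, ?_⟩
    · obtain ⟨a, ha⟩ := hS
      exact ⟨a, mem_univ a, ha⟩
    · by_contra hcon
      push Not at hcon
      exact hne (eq_univ_iff_forall.2 fun a => hcon a (mem_univ a))
  have h0 : ∀ v, x v v = 0 := fun v => hx.wt.supp v v fun h1 => hd _ h1 (by simp)
  refine ⟨gr G, x, hP, hUG, ?_, hx.wt.symm, hx.wt.nn, fun u v huv => ?_, fun v => ?_, hcut, h⟩
  · rw [H85TF.gr_edgeSet fun e he => hd e he, Set.ncard_coe_finset]
    exact hm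
  · by_cases huv' : u = v
    · rw [huv']
      exact h0 v
    · refine hx.wt.supp u v fun h1 => huv ?_
      rw [SimpleGraph.fromEdgeSet_adj]
      exact ⟨by exact_mod_cast h1, huv'⟩
  · refine le_antisymm (hx.deg_le v) ?_
    have h1 := hcut {v} (singleton_nonempty v) (fun h2 => by
      have h3 := congrArg card h2
      rw [card_singleton, card_univ, Fintype.card_fin] at h3
      omega)
    refine h1.trans (le_of_eq ?_)
    unfold H31S.cut
    rw [sum_singleton, ← Finset.sum_add_sum_compl {v}, sum_singleton, h0 v, zero_add]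

end H36V
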