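import Pool.Agent.Lib.H36V.Sub
import Pool.Agent.Lib.H77D4.Unc

/-!
# H36V, file SubH: the drawing level with a 2-connected subgraph with exactly `2n - 3` edges
-/

set_option autoImplicit false
set_option linter.unusedSectionVars false

open H53P SimpleDraw

namespace H36V

open Finset H98P H98Z H98M H63F H30F H63L H97W H85TF LD H77D4 H98TF

/-- THE DRAWING LEVEL for a covering predicate, with a 2-connected `H` with exactly `2n - 3` edges. -/
theorem CovP.drawH {n : ℕ} {Pi : Finset (Sym2 (Fin n)) → Finset (Fin n) → Prop} (c : CovP Pi) (hn : 3 ≤ n)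
    (D : SimpleDrawing n) (R U : SimpleGraph (Fin n))
    (hU : ∀ i j, U.Adj i j → ∀ k l, k ≠ l → s(i, j) ≠ s(k, l) → ∀ p ∈ D.curve i j ∩ D.curve k l,
      ∃ v, (v = i ∨ v = j) ∧ (v = k ∨ v = l) ∧ p = D.pt v) :
    ∃ (G : Finset (Sym2 (Fin n))) (H : SimpleGraph (Fin n)), G ⊆ LW univ ∧ D.Plane (gr G) ∧ U ≤ gr G ∧
      Pi G univ ∧ H ≤ gr G ∧ H.Connected ∧ (∀ v, (H.induce {w | w ≠ v}).Connected) ∧
      H.edgeSet.ncard = 2 * n - 3 ∧
      ((∃ F : SimpleGraph (Fin n), F ≤ H ∧ R ⊔ U ≤ F ∧ (∀ v, (F.neighborSet v).ncard = 2) ∧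
        ∃ (v : Fin n) (c : F.Walk v v), c.IsHamiltonianCycle) ∨
        ∀ u v, ((gr G ⊔ R).induce {w | w ≠ u ∧ w ≠ v}).Connected) := by
  obtain ⟨G, hGL, hGP, hT, hm, hPi, h⟩ := c.form (H53P.crossT_symm (H53P.table D))
    (H98W.hd_table (H53P.table D)) (by rw [Fintype.card_fin]; exact hn) (H36V.es_sub (R ⊔ U))
  have hUL := H36V.es_sub U
  have hgr : gr (G ∪ es U) = gr G ⊔ U := by rw [gr_union, gr_es]
  have hGL1 : G ∪ es U ⊆ LW univ := union_subset hGL hUL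
  have hT1 : TC (G ∪ es U) := tc_mono subset_union_left hT
  have hm1 : 2 * Fintype.card (Fin n) ≤ (G ∪ es U).card + 3 := by
    have := card_le_card (subset_union_left : G ⊆ G ∪ es U)
    omega
  have hP : D.Plane (gr (G ∪ es U)) := by
    rw [hgr]
    exact plane_uncrossed D hU (plane_of D hGP)
  have hUG : U ≤ gr (G ∪ es U) := by
    rw [hgr]
    exact le_sup_right
  rcases h with ⟨F, hF, hRF, hc, h2⟩ | hN
  · have hd := not_diag_of_LW hGL
    have hdF : ∀ e ∈ F, ¬ e.IsDiag := fun e he => hd e (hF he)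
    obtain ⟨H, g2, g3, g4, g5, g6⟩ := layer2' hn hGL1 hT1 (hF.trans subset_union_left) (fun v => (h2 v).le) hm1
    refine ⟨G ∪ es U, H, hGL1, hP, hUG, c.mono subset_union_left hPi, g2, g3, g4, g5,
      Or.inl ⟨gr F, g6, ?_, fun v => (degree_gr hdF v).trans (h2 v), ⟨0, by omega⟩, ham_gr (by omega) hdF hc h2 _⟩⟩
    rw [← gr_es (R ⊔ U)]
    exact gr_mono hRF
  · obtain ⟨H, g2, g3, g4, g5, -⟩ := layer2' hn hGL1 hT1 (empty_subset _) (fun v => by
      unfold dg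
      simp) hm1
    refine ⟨G ∪ es U, H, hGL1, hP, hUG, c.mono subset_union_left hPi, g2, g3, g4, g5, Or.inr ?_⟩
    have h8 := conn3 (G := G ∪ es (R ⊔ U)) (by omega) (tc_mono subset_union_left hT) hN
    rw [gr_union, gr_es] at h8
    rw [hgr, sup_assoc, sup_comm U R]
    exact h8

/-- Feasible weights for all vertices: degrees two. -/
theorem feas_univ {n : ℕ} (hn : 3 ≤ n) {G : Finset (Sym2 (Fin n))} (hGL : G ⊆ LW univ) {x : Fin n → Fin n → ℝ}
    (hx : H31S.Feas G univ x) : (∀ u v, ¬ (gr G).Adj u v → x u v = 0) ∧ (∀ v, ∑ w, x v w = 2) ∧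
      (∀ S : Finset (Fin n), S.Nonempty → S ≠ univ → 2 ≤ ∑ u ∈ S, ∑ v ∈ Sᶜ, x u v) := by
  have hd := not_diag_of_LW hGL
  have hcut : ∀ S : Finset (Fin n), S.Nonempty → S ≠ univ → 2 ≤ H31S.cut x S := by
    intro S hS hne
    refine hx.sep S ⟨?_, ?_⟩
    · obtain ⟨a, ha⟩ := hS
      exact ⟨a, mem_univ a, ha⟩
    · by_contra hcon
      push Not at hcon
      exact hne (eq_univ_iff_forall.2 fun a => hcon a (mem_univ a))
  have h0 : ∀ v, x v v = 0 := fun v => hx.wt.supp v v fun h1 => hd _ h1 (by simp)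
  refine ⟨fun u v huv => ?_, fun v => ?_, hcut⟩
  · by_cases huv' : u = v
    · rw [huv']
      exact h0 v
    · refine hx.wt.supp u v fun h1 => huv ?_
      rw [SimpleGraph.fromEdgeSet_adj]
      exact ⟨by exact_mod_cast h1, huv'⟩
  · refine le_antisymm (hx.deg_le v) ?_
    have h1 := hcut {v} (singleton_nonempty v) (fun h2 => by
      have h3 := congrArg card h2
      rw [card_singleton, card_univ, Fintype.card_fin] at h3
      omega)
    refine h1.trans (le_of_eq ?_)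
    unfold H31S.cut
    rw [sum_singleton, ← Finset.sum_add_sum_compl {v}, sum_singleton, h0 v, zero_add]

/-- A plane graph `G` with a fractional Hamiltonian cycle `x`. -/
theorem draw_subH {n : ℕ} (hn : 3 ≤ n)
    (c : CovP (H31S.Pi : Finset (Sym2 (Fin n)) → Finset (Fin n) → Prop)) (D : SimpleDrawing n)
    (R U : SimpleGraph (Fin n))
    (hU : ∀ i j, U.Adj i j → ∀ k l, k ≠ l → s(i, j) ≠ s(k, l) → ∀ p ∈ D.curve i j ∩ D.curve k l,
      ∃ v, (v = i ∨ v = j) ∧ (v = k ∨ v = l) ∧ p = D.pt v) :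
    ∃ (G H : SimpleGraph (Fin n)) (x : Fin n → Fin n → ℝ), D.Plane G ∧ U ≤ G ∧ H ≤ G ∧ H.Connected ∧
      (∀ v, (H.induce {w | w ≠ v}).Connected) ∧ H.edgeSet.ncard = 2 * n - 3 ∧
      (∀ u v, x u v = x v u) ∧ (∀ u v, 0 ≤ x u v) ∧ (∀ u v, ¬ G.Adj u v → x u v = 0) ∧
      (∀ v, ∑ w, x v w = 2) ∧
      (∀ S : Finset (Fin n), S.Nonempty → S ≠ univ → 2 ≤ ∑ u ∈ S, ∑ v ∈ Sᶜ, x u v) ∧
      ((∃ F : SimpleGraph (Fin n), F ≤ H ∧ R ⊔ U ≤ F ∧ (∀ v, (F.neighborSet v).ncard = 2) ∧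
        ∃ (v : Fin n) (c : F.Walk v v), c.IsHamiltonianCycle) ∨
        ∀ u v, ((G ⊔ R).induce {w | w ≠ u ∧ w ≠ v}).Connected) := by
  obtain ⟨G, H, hGL, hP, hUG, ⟨x, hx⟩, g2, g3, g4, g5, h⟩ := c.drawH hn D R U hU
  obtain ⟨a1, a2, a3⟩ := feas_univ hn hGL hx
  exact ⟨gr G, H, x, hP, hUG, g2, g3, g4, g5, hx.wt.symm, hx.wt.nn, a1, a2, a3, h⟩

end H36V
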