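import Pool.Agent.Lib.H36R.FD4

/-!
# H36V, file U7: the predicate `U7` for a pair of graphs `G ⊆ E` (cuts in `E`, covering in `G`)
-/

set_option autoImplicit false
set_option linter.unusedSectionVars false

namespace H36V

open Finset H98M LD H56LD H85TF

variable {V : Type*} [Fintype V] [DecidableEq V]

/-- The properties of a covering predicate. -/
structure KP (K : Finset (Sym2 V) → Finset V → Finset V → Prop) : Prop where
  sub : ∀ {G : Finset (Sym2 V)} {Y W W' : Finset V}, W ⊆ W' → K G Y W' → K G Y W
  mono : ∀ {G G' : Finset (Sym2 V)} {Y W : Finset V}, G ⊆ G' → K G Y W → K G' Y W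
  two : ∀ {G : Finset (Sym2 V)} {Y W : Finset V}, TCY G Y → (W ∩ Y).card ≤ 2 → K G Y W
  cyc : ∀ {G : Finset (Sym2 V)} {Y W : Finset V}, TCY G Y → (∀ v ∈ Y, dg G v = 2) → K G Y W
  redn : ∀ {G : Finset (Sym2 V)} {Y W : Finset V} {x y : V} {P Q : Finset V}, TCY G Y → Sep G Y x y P Q →
    Disjoint W Q → K (red G Y x y Q) (Y \ Q) W → K G Y W

/-- Some iterated reduction of the graph `(G, Y)`, along cuts of `E`, does not cover `W`. -/
inductive U7 (K : Finset (Sym2 V) → Finset V → Finset V → Prop) :
    Finset (Sym2 V) → Finset (Sym2 V) → Finset V → Finset V → Prop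
  | base {E G : Finset (Sym2 V)} {Y W : Finset V} : ¬ K G Y W → U7 K E G Y W
  | step {E G : Finset (Sym2 V)} {Y W : Finset V} {x y : V} {P Q : Finset V} :
      Sep E Y x y P Q → U7 K (red E Y x y Q) (red G Y x y Q) (Y \ Q) W → U7 K E G Y W

section

variable {K : Finset (Sym2 V) → Finset V → Finset V → Prop}

theorem U7.up (hK : KP K) {E G : Finset (Sym2 V)} {Y W W' : Finset V} (h : U7 K E G Y W) (hW : W ⊆ W') :
    U7 K E G Y W' := by
  induction h with
  | base h => exact U7.base fun h1 => h (hK.sub hW h1)
  | step hs _ ih => exact U7.step hs (ih hW)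

theorem U7.anti (hK : KP K) {E' G' : Finset (Sym2 V)} {Y W : Finset V} (h : U7 K E' G' Y W) :
    ∀ {E G : Finset (Sym2 V)}, E ⊆ E' → G ⊆ G' → U7 K E G Y W := by
  induction h with
  | base h => exact fun _ hG => U7.base fun h1 => h (hK.mono hG h1)
  | step hs _ ih => exact fun hE hG => U7.step (hs.anti hE) (ih (red_mono hE) (red_mono hG))

theorem u7_noSep {E G : Finset (Sym2 V)} {Y W : Finset V} (h : ∀ x y P Q, ¬ Sep E Y x y P Q)
    (hU : U7 K E G Y W) : ¬ K G Y W := by
  cases hU with
  | base h1 => exact h1
  | step hs _ => exact absurd hs (h _ _ _ _)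

theorem u7_two (hK : KP K) {E G : Finset (Sym2 V)} {Y W : Finset V} (hGE : G ⊆ E) (h : TCY G Y)
    (h2 : (W ∩ Y).card ≤ 2) : ¬ U7 K E G Y W := by
  intro hU
  induction hU with
  | base h1 => exact h1 (hK.two h h2)
  | @step E G Y W x y P Q hs _ ih =>
    refine ih (red_mono hGE) (LD77.tcy_red h (hs.anti hGE)) (le_trans (card_le_card ?_) h2)
    exact inter_subset_inter_left sdiff_subset

theorem u7_cycle_aux (hK : KP K) {E G : Finset (Sym2 V)} {Y W : Finset V} (hGE : G = E) (h : TCY G Y)
    (h2 : ∀ v ∈ Y, dg G v = 2) : ¬ U7 K E G Y W := by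
  intro hU
  induction hU with
  | base h1 => exact h1 (hK.cyc h h2)
  | @step E G Y W x y P Q hs _ ih =>
    subst hGE
    exact ih rfl (LD77.tcy_red h hs) (LD77.dg_red h hs h2)

/-- (S7), the nontrivial direction. -/
theorem u7_side (hK : KP K) {E G : Finset (Sym2 V)} {Y W : Finset V} (hU : U7 K E G Y W) :
    ∀ {x y : V} {P Q : Finset V}, G ⊆ E → TCY G Y → TCY E Y → Sep E Y x y P Q → Unc E Y x y → Disjoint W Q →
      U7 K (red E Y x y Q) (red G Y x y Q) (Y \ Q) W := by
  have S1 : ∀ {E : Finset (Sym2 V)} {Y : Finset V} {x y : V} {P Q : Finset V}, TCY E Y → Sep E Y x y P Q →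
      TCY (red E Y x y Q) (Y \ Q) := fun h hs => LD77.tcy_red h hs
  have S6 : ∀ {E : Finset (Sym2 V)} {Y : Finset V} {x y u v : V} {P Q C D : Finset V}, TCY E Y →
      Sep E Y x y P Q → Sep E Y u v C D → x ∉ C → y ∉ C → ¬ ((u = x ∧ v = y) ∨ (u = y ∧ v = x)) →
      (C ⊆ P ∧ u ∉ Q ∧ v ∉ Q) ∨ (C ⊆ Q ∧ u ∉ P ∧ v ∉ P) := fun h hs h' hx hy hne => H96LD.side h hs h' hx hy hne
  induction hU with
  | @base E G Y W h =>
    intro x y P Q hGE hG _ hs _ hW
    exact U7.base fun h1 => h (hK.redn hG (hs.anti hGE) hW h1)
  | @step E G Y W u v C D hs' hU' ih =>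
    intro x y P Q hGE hG hT hs hu hW
    have hT1 := S1 hT hs'
    have hG1 := S1 hG (hs'.anti hGE)
    have hGE1 : red G Y u v D ⊆ red E Y u v D := red_mono hGE
    have hY := sep_mem hs
    have hY' := sep_mem hs'
    have hPQ := disjoint_left.1 hs.dis
    have hCD := disjoint_left.1 hs'.dis
    have hWQ := disjoint_left.1 hW
    by_cases hc : (u = x ∧ v = y) ∨ (u = y ∧ v = x)
    · -- the same pair
      have main : ∀ {u v : V}, u = x → v = y → Sep E Y u v C D → U7 K (red E Y u v D) (red G Y u v D) (Y \ D) W →
          (∀ {x y : V} {P Q : Finset V}, red G Y u v D ⊆ red E Y u v D → TCY (red G Y u v D) (Y \ D) → TCY (red E Y u v D) (Y \ D) → Sep (red E Y u v D) (Y \ D) x y P Q →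
            Unc (red E Y u v D) (Y \ D) x y → Disjoint W Q →
              U7 K (red (red E Y u v D) (Y \ D) x y Q) (red (red G Y u v D) (Y \ D) x y Q) ((Y \ D) \ Q) W) → U7 K (red E Y x y Q) (red G Y x y Q) (Y \ Q) W := by
        intro u v hux hvy hs' hU' ih
        subst hux hvy
        have hT1 := S1 hT hs'
        have hG1 := S1 hG (hs'.anti hGE)
        have hGE1 : red G Y u v D ⊆ red E Y u v D := red_mono hGE
        have hY' := sep_mem hs'
        have hpart : ∀ w, (w ∈ P ∨ w ∈ Q) ↔ (w ∈ C ∨ w ∈ D) := by
          intro w
          constructor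
          · intro h1
            have h2 := (hY w).2 (Or.inr (Or.inr h1))
            rcases (hY' w).1 h2 with h3 | h3 | h3
            · subst h3
              rcases h1 with h1 | h1
              · exact absurd h1 hs.xP
              · exact absurd h1 hs.xQ
            · subst h3
              rcases h1 with h1 | h1
              · exact absurd h1 hs.yP
              · exact absurd h1 hs.yQ
            · exact h3
          · intro h1
            have h2 := (hY' w).2 (Or.inr (Or.inr h1))
            rcases (hY w).1 h2 with h3 | h3 | h3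
            · subst h3
              rcases h1 with h1 | h1
              · exact absurd h1 hs'.xP
              · exact absurd h1 hs'.xQ
            · subst h3
              rcases h1 with h1 | h1
              · exact absurd h1 hs'.yP
              · exact absurd h1 hs'.yQ
            · exact h3
        by_cases hPC : (P ∩ C).Nonempty
        · -- `U` for the part without `D` and `Q`
          have hR : U7 K (insert s(u, v) (E ∩ ((Y \ D) \ Q).sym2)) (insert s(u, v) (G ∩ ((Y \ D) \ Q).sym2))
              ((Y \ D) \ Q) W := by
            by_cases hQC : (Q ∩ C).Nonempty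
            · have hs1 : Sep (red E Y u v D) (Y \ D) u v (P ∩ C) (Q ∩ C) := by
                refine ⟨hs.ne, fun h => hs.xP (mem_inter.1 h).1, fun h => hs.xQ (mem_inter.1 h).1,
                  fun h => hs.yP (mem_inter.1 h).1, fun h => hs.yQ (mem_inter.1 h).1, hPC, hQC,
                  hs.dis.mono inter_subset_left inter_subset_left, ?_, ?_⟩
                · ext w
                  have h1 := hY w
                  have h2 := hY' w
                  have h3 := hpart w
                  have h4 := @hCD w
                  simp only [mem_insert, mem_union, mem_inter, mem_sdiff]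
                  constructor
                  · rintro (h5 | h5 | h5 | h5)
                    · exact ⟨h1.2 (Or.inl h5), h5 ▸ hs'.xQ⟩
                    · exact ⟨h1.2 (Or.inr (Or.inl h5)), h5 ▸ hs'.yQ⟩
                    · exact ⟨h1.2 (Or.inr (Or.inr (Or.inl h5.1))), h4 h5.2⟩
                    · exact ⟨h1.2 (Or.inr (Or.inr (Or.inr h5.1))), h4 h5.2⟩
                  · rintro ⟨h5, h6⟩
                    rcases h2.1 h5 with h7 | h7 | h7 | h7
                    · exact Or.inl h7
                    · exact Or.inr (Or.inl h7)
                    · rcases h3.2 (Or.inl h7) with h8 | h8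
                      · exact Or.inr (Or.inr (Or.inl ⟨h8, h7⟩))
                      · exact Or.inr (Or.inr (Or.inr ⟨h8, h7⟩))
                    · exact absurd h7 h6
                · intro a ha b hb he
                  rw [mem_inter] at ha hb
                  rcases mem_red.1 he with h1 | h1
                  · rcases Sym2.eq_iff.1 h1 with ⟨h2, -⟩ | ⟨h2, -⟩
                    · exact hs.xP (h2 ▸ ha.1)
                    · exact hs.yP (h2 ▸ ha.1)
                  · exact hs.noE a ha.1 b hb.1 h1.1
              have h1 := ih hGE1 hG1 hT1 hs1 (fun a b P' Q' h ⟨h2, h3⟩ => h.noE u h2 v h3 (mem_red.2 (Or.inl rfl)))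
                (hW.mono_right inter_subset_left)
              have h2 : (Y \ D) \ (Q ∩ C) = (Y \ D) \ Q := by
                ext w
                have h3 := hY' w
                have h4 := hY w
                simp only [mem_sdiff, mem_inter]
                constructor
                · rintro ⟨⟨h5, h6⟩, h7⟩
                  refine ⟨⟨h5, h6⟩, fun h8 => ?_⟩
                  rcases (hpart w).1 (Or.inr h8) with h9 | h9
                  · exact h7 ⟨h8, h9⟩
                  · exact h6 h9
                · rintro ⟨h5, h6⟩
                  exact ⟨h5, fun h7 => h6 h7.1⟩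
              have h3 : ∀ E : Finset (Sym2 V), red (red E Y u v D) (Y \ D) u v (Q ∩ C) =
                  insert s(u, v) (E ∩ ((Y \ D) \ Q).sym2) := by
                intro E
                unfold red
                rw [h2]
                ext e
                simp only [mem_insert, mem_inter]
                constructor
                · rintro (h4 | ⟨h4 | ⟨h4, h5⟩, h6⟩)
                  · exact Or.inl h4
                  · exact Or.inl h4
                  · exact Or.inr ⟨h4, h6⟩
                · rintro (h4 | ⟨h4, h5⟩)
                  · exact Or.inl h4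
                  · exact Or.inr ⟨Or.inr ⟨h4, sym2_mono sdiff_subset h5⟩, h5⟩
              rw [h2, h3 E, h3 G] at h1
              exact h1
            · have h1 : (Y \ D) \ Q = Y \ D := by
                rw [Finset.sdiff_eq_self_iff_disjoint, disjoint_left]
                intro w h2 h3
                rw [mem_sdiff] at h2
                rcases (hpart w).1 (Or.inr h3) with h4 | h4
                · exact hQC ⟨w, mem_inter.2 ⟨h3, h4⟩⟩
                · exact h2.2 h4
              rw [h1]
              exact hU'
          by_cases hPD : (P ∩ D).Nonempty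
          · have hs1 : Sep (red E Y u v Q) (Y \ Q) u v (P ∩ C) (P ∩ D) := by
              refine ⟨hs.ne, fun h => hs.xP (mem_inter.1 h).1, fun h => hs.xP (mem_inter.1 h).1,
                fun h => hs.yP (mem_inter.1 h).1, fun h => hs.yP (mem_inter.1 h).1, hPC, hPD,
                hs'.dis.mono inter_subset_right inter_subset_right, ?_, ?_⟩
              · ext w
                have h1 := hY w
                have h3 := hpart w
                have h4 := @hPQ w
                simp only [mem_insert, mem_union, mem_inter, mem_sdiff]
                constructor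
                · rintro (h5 | h5 | h5 | h5)
                  · exact ⟨h1.2 (Or.inl h5), h5 ▸ hs.xQ⟩
                  · exact ⟨h1.2 (Or.inr (Or.inl h5)), h5 ▸ hs.yQ⟩
                  · exact ⟨h1.2 (Or.inr (Or.inr (Or.inl h5.1))), h4 h5.1⟩
                  · exact ⟨h1.2 (Or.inr (Or.inr (Or.inl h5.1))), h4 h5.1⟩
                · rintro ⟨h5, h6⟩
                  rcases h1.1 h5 with h7 | h7 | h7 | h7
                  · exact Or.inl h7
                  · exact Or.inr (Or.inl h7)
                  · rcases h3.1 (Or.inl h7) with h8 | h8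
                    · exact Or.inr (Or.inr (Or.inl ⟨h7, h8⟩))
                    · exact Or.inr (Or.inr (Or.inr ⟨h7, h8⟩))
                  · exact absurd h7 h6
              · intro a ha b hb he
                rw [mem_inter] at ha hb
                rcases mem_red.1 he with h1 | h1
                · rcases Sym2.eq_iff.1 h1 with ⟨h2, -⟩ | ⟨h2, -⟩
                  · exact hs.xP (h2 ▸ ha.1)
                  · exact hs.yP (h2 ▸ ha.1)
                · exact hs'.noE a ha.2 b hb.2 h1.1
            refine U7.step hs1 ?_
            have h2 : (Y \ Q) \ (P ∩ D) = (Y \ D) \ Q := by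
              ext w
              have h4 := hY w
              simp only [mem_sdiff, mem_inter]
              constructor
              · rintro ⟨⟨h5, h6⟩, h7⟩
                refine ⟨⟨h5, fun h8 => ?_⟩, h6⟩
                rcases (hpart w).2 (Or.inr h8) with h9 | h9
                · exact h7 ⟨h9, h8⟩
                · exact h6 h9
              · rintro ⟨⟨h5, h6⟩, h7⟩
                exact ⟨⟨h5, h7⟩, fun h8 => h6 h8.2⟩
            have h3 : ∀ E : Finset (Sym2 V), red (red E Y u v Q) (Y \ Q) u v (P ∩ D) =
                insert s(u, v) (E ∩ ((Y \ D) \ Q).sym2) := by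
              intro E
              unfold red
              rw [h2]
              have h7 : (Y \ D) \ Q ⊆ Y \ Q := sdiff_subset_sdiff sdiff_subset Subset.rfl
              ext e
              simp only [mem_insert, mem_inter]
              constructor
              · rintro (h4 | ⟨h4 | ⟨h4, h5⟩, h6⟩)
                · exact Or.inl h4
                · exact Or.inl h4
                · exact Or.inr ⟨h4, h6⟩
              · rintro (h4 | ⟨h4, h5⟩)
                · exact Or.inl h4
                · exact Or.inr ⟨Or.inr ⟨h4, sym2_mono h7 h5⟩, h5⟩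
            rw [h2, h3 E, h3 G]
            exact hR
          · have h1 : Y \ Q = (Y \ D) \ Q := by
              ext w
              simp only [mem_sdiff]
              constructor
              · rintro ⟨h5, h6⟩
                refine ⟨⟨h5, fun h8 => ?_⟩, h6⟩
                rcases (hpart w).2 (Or.inr h8) with h9 | h9
                · exact hPD ⟨w, mem_inter.2 ⟨h9, h8⟩⟩
                · exact h6 h9
              · rintro ⟨⟨h5, -⟩, h7⟩
                exact ⟨h5, h7⟩
            unfold red
            rw [h1]
            exact hR
        · -- `W` is inside the pair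
          exfalso
          refine u7_two hK hGE1 hG1 ?_ hU'
          have h1 : W ∩ (Y \ D) ⊆ {u, v} := by
            intro w hw
            rw [mem_inter, mem_sdiff] at hw
            rw [mem_insert, mem_singleton]
            rcases (hY w).1 hw.2.1 with h2 | h2 | h2 | h2
            · exact Or.inl h2
            · exact Or.inr h2
            · exfalso
              rcases (hpart w).1 (Or.inl h2) with h3 | h3
              · exact hPC ⟨w, mem_inter.2 ⟨h2, h3⟩⟩
              · exact hw.2.2 h3
            · exact absurd h2 (hWQ hw.1)
          exact (card_le_card h1).trans card_le_two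
      rcases hc with ⟨h1, h2⟩ | ⟨h1, h2⟩
      · exact main h1 h2 hs' hU' ih
      · have h3 : ∀ E : Finset (Sym2 V), red E Y u v D = red E Y v u D := by
          intro E
          unfold red
          rw [Sym2.eq_swap]
        rw [h3 E, h3 G] at hU' ih
        exact main h2 h1 hs'.flip hU' ih
    · -- different pairs
      have hxy : (x ∉ C ∧ y ∉ C) ∨ (x ∉ D ∧ y ∉ D) := by
        by_cases h1 : x ∈ C
        · right
          exact ⟨hCD h1, fun h2 => hu u v C D hs' ⟨h1, h2⟩⟩
        · by_cases h2 : y ∈ C
          · right
            exact ⟨fun h3 => hu u v D C hs'.symm ⟨h3, h2⟩, hCD h2⟩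
          · exact Or.inl ⟨h1, h2⟩
      -- one of `x`, `y` is not in the pair `u`, `v` and vice versa
      have hne1 : ∃ w, (w = x ∨ w = y) ∧ w ≠ u ∧ w ≠ v := by
        by_cases h1 : x ≠ u ∧ x ≠ v
        · exact ⟨x, Or.inl rfl, h1⟩
        · refine ⟨y, Or.inr rfl, fun h2 => ?_, fun h2 => ?_⟩
          · apply h1
            refine ⟨fun h3 => hs.ne (h3.trans h2.symm), fun h3 => hc (Or.inr ⟨h2.symm, h3.symm⟩)⟩
          · apply h1
            refine ⟨fun h3 => hc (Or.inl ⟨h3.symm, h2.symm⟩), fun h3 => hs.ne (h3.trans h2.symm)⟩
      have hne2 : ∃ w, (w = u ∨ w = v) ∧ w ≠ x ∧ w ≠ y := by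
        by_cases h1 : u ≠ x ∧ u ≠ y
        · exact ⟨u, Or.inl rfl, h1⟩
        · refine ⟨v, Or.inr rfl, fun h2 => ?_, fun h2 => ?_⟩
          · apply h1
            refine ⟨fun h3 => hs'.ne (h3.trans h2.symm), fun h3 => hc (Or.inr ⟨h3, h2⟩)⟩
          · apply h1
            refine ⟨fun h3 => hc (Or.inl ⟨h3, h2⟩), fun h3 => hs'.ne (h3.trans h2.symm)⟩
      have hxY : x ∈ Y := (hY x).2 (Or.inl rfl)
      have hyY : y ∈ Y := (hY y).2 (Or.inr (Or.inl rfl))
      have huY : u ∈ Y := (hY' u).2 (Or.inl rfl)
      have hvY : v ∈ Y := (hY' v).2 (Or.inr (Or.inl rfl))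
      rcases hxy with ⟨hxC, hyC⟩ | ⟨hxD, hyD⟩
      · rcases S6 hT hs hs' hxC hyC hc with ⟨hCP, huQ, hvQ⟩ | ⟨hCQ, huP, hvP⟩
        · -- `Q` is inside `D`
          have hQD : Q ⊆ D := by
            intro w hw
            rcases (hY' w).1 ((hY w).2 (Or.inr (Or.inr (Or.inr hw)))) with h2 | h2 | h2 | h2
            · exact absurd (h2 ▸ hw) huQ
            · exact absurd (h2 ▸ hw) hvQ
            · exact absurd hw (hPQ (hCP h2))
            · exact h2
          obtain ⟨z, hz, hzu, hzv⟩ := hne1
          have hzD : z ∈ D ∧ z ∉ Q := by
            have hzY : z ∈ Y := by rcases hz with h2 | h2 <;> rw [h2] <;> assumption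
            rcases (hY' z).1 hzY with h2 | h2 | h2 | h2
            · exact absurd h2 hzu
            · exact absurd h2 hzv
            · exfalso
              rcases hz with h3 | h3 <;> rw [h3] at h2
              · exact hxC h2
              · exact hyC h2
            · refine ⟨h2, fun h3 => ?_⟩
              rcases hz with h4 | h4 <;> rw [h4] at h3
              · exact hs.xQ h3
              · exact hs.yQ h3
          have hs1 : Sep (red E Y x y Q) (Y \ Q) u v C (D \ Q) := by
            refine ⟨hs'.ne, hs'.xP, fun h => hs'.xQ (mem_sdiff.1 h).1, hs'.yP,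
              fun h => hs'.yQ (mem_sdiff.1 h).1, hs'.P0, ⟨z, mem_sdiff.2 hzD⟩,
              hs'.dis.mono_right sdiff_subset, ?_, ?_⟩
            · ext w
              have h1 := hY' w
              simp only [mem_insert, mem_union, mem_sdiff]
              constructor
              · rintro (h5 | h5 | h5 | h5)
                · exact ⟨h1.2 (Or.inl h5), h5 ▸ huQ⟩
                · exact ⟨h1.2 (Or.inr (Or.inl h5)), h5 ▸ hvQ⟩
                · exact ⟨h1.2 (Or.inr (Or.inr (Or.inl h5))), hPQ (hCP h5)⟩
                · exact ⟨h1.2 (Or.inr (Or.inr (Or.inr h5.1))), h5.2⟩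
              · rintro ⟨h5, h6⟩
                rcases h1.1 h5 with h7 | h7 | h7 | h7
                · exact Or.inl h7
                · exact Or.inr (Or.inl h7)
                · exact Or.inr (Or.inr (Or.inl h7))
                · exact Or.inr (Or.inr (Or.inr ⟨h7, h6⟩))
            · intro a ha b hb he
              rcases mem_red.1 he with h1 | h1
              · rcases Sym2.eq_iff.1 h1 with ⟨h2, -⟩ | ⟨h2, -⟩
                · exact hxC (h2 ▸ ha)
                · exact hyC (h2 ▸ ha)
              · exact hs'.noE a ha b (mem_sdiff.1 hb).1 h1.1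
          refine U7.step hs1 ?_
          have h2 : (Y \ Q) \ (D \ Q) = Y \ D := by
            ext w
            simp only [mem_sdiff, not_and, not_not]
            constructor
            · rintro ⟨⟨h5, h6⟩, h7⟩
              exact ⟨h5, fun h8 => h6 (h7 h8)⟩
            · rintro ⟨h5, h6⟩
              exact ⟨⟨h5, fun h7 => h6 (hQD h7)⟩, fun h7 => absurd h7 h6⟩
          have h3 : ∀ E : Finset (Sym2 V), red (red E Y x y Q) (Y \ Q) u v (D \ Q) = red E Y u v D := by
            intro E
            unfold red
            rw [h2]
            have h7 : Y \ D ⊆ Y \ Q := sdiff_subset_sdiff Subset.rfl hQD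
            ext e
            simp only [mem_insert, mem_inter]
            constructor
            · rintro (h4 | ⟨h4 | ⟨h4, h5⟩, h6⟩)
              · exact Or.inl h4
              · exfalso
                rw [h4, mk_mem_sym2_iff, mem_sdiff, mem_sdiff] at h6
                rcases hz with h8 | h8 <;> rw [h8] at hzD
                · exact h6.1.2 hzD.1
                · exact h6.2.2 hzD.1
              · exact Or.inr ⟨h4, h6⟩
            · rintro (h4 | ⟨h4, h5⟩)
              · exact Or.inl h4
              · exact Or.inr ⟨Or.inr ⟨h4, sym2_mono h7 h5⟩, h5⟩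
          rw [h2, h3 E, h3 G]
          exact hU'
        · -- `P` is inside `D`
          exfalso
          refine u7_two hK hGE1 hG1 ?_ hU'
          have h1 : W ∩ (Y \ D) ⊆ {u, v} := by
            intro w hw
            rw [mem_inter, mem_sdiff] at hw
            rw [mem_insert, mem_singleton]
            rcases (hY' w).1 hw.2.1 with h2 | h2 | h2 | h2
            · exact Or.inl h2
            · exact Or.inr h2
            · exact absurd (hCQ h2) (hWQ hw.1)
            · exact absurd h2 hw.2.2
          exact (card_le_card h1).trans card_le_two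
      · rcases S6 hT hs hs'.symm hxD hyD hc with ⟨hDP, huQ, hvQ⟩ | ⟨hDQ, huP, hvP⟩
        · -- `D` is inside `P`
          obtain ⟨z, hz, hzx, hzy⟩ := hne2
          have hzP : z ∈ P ∧ z ∉ D := by
            have hzY : z ∈ Y := by rcases hz with h2 | h2 <;> rw [h2] <;> assumption
            have hzQ : z ∉ Q := by rcases hz with h2 | h2 <;> rw [h2] <;> assumption
            rcases (hY z).1 hzY with h2 | h2 | h2 | h2
            · exact absurd h2 hzx
            · exact absurd h2 hzy
            · refine ⟨h2, ?_⟩
              rcases hz with h3 | h3 <;> rw [h3]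
              · exact hs'.xQ
              · exact hs'.yQ
            · exact absurd h2 hzQ
          have hs1 : Sep (red E Y u v D) (Y \ D) x y (P \ D) Q := by
            refine ⟨hs.ne, fun h => hs.xP (mem_sdiff.1 h).1, hs.xQ, fun h => hs.yP (mem_sdiff.1 h).1,
              hs.yQ, ⟨z, mem_sdiff.2 hzP⟩, hs.Q0, hs.dis.mono_left sdiff_subset, ?_, ?_⟩
            · ext w
              have h1 := hY w
              simp only [mem_insert, mem_union, mem_sdiff]
              constructor
              · rintro (h5 | h5 | h5 | h5)
                · exact ⟨h1.2 (Or.inl h5), h5 ▸ hxD⟩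
                · exact ⟨h1.2 (Or.inr (Or.inl h5)), h5 ▸ hyD⟩
                · exact ⟨h1.2 (Or.inr (Or.inr (Or.inl h5.1))), h5.2⟩
                · exact ⟨h1.2 (Or.inr (Or.inr (Or.inr h5))), fun h6 => hPQ (hDP h6) h5⟩
              · rintro ⟨h5, h6⟩
                rcases h1.1 h5 with h7 | h7 | h7 | h7
                · exact Or.inl h7
                · exact Or.inr (Or.inl h7)
                · exact Or.inr (Or.inr (Or.inl ⟨h7, h6⟩))
                · exact Or.inr (Or.inr (Or.inr h7))
            · intro a ha b hb he
              rcases mem_red.1 he with h1 | h1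
              · rcases Sym2.eq_iff.1 h1 with ⟨-, h2⟩ | ⟨-, h2⟩
                · exact hvQ (h2 ▸ hb)
                · exact huQ (h2 ▸ hb)
              · exact hs.noE a (mem_sdiff.1 ha).1 b hb h1.1
          have hi := ih hGE1 hG1 hT1 hs1 (unc_red hu hs') hW
          obtain ⟨z', hz', hzu', hzv'⟩ := hne1
          have hzC : z' ∈ C ∧ z' ∉ Q := by
            have hzY : z' ∈ Y := by rcases hz' with h2 | h2 <;> rw [h2] <;> assumption
            have hzD : z' ∉ D := by rcases hz' with h2 | h2 <;> rw [h2] <;> assumption
            rcases (hY' z').1 hzY with h2 | h2 | h2 | h2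
            · exact absurd h2 hzu'
            · exact absurd h2 hzv'
            · refine ⟨h2, ?_⟩
              rcases hz' with h3 | h3 <;> rw [h3]
              · exact hs.xQ
              · exact hs.yQ
            · exact absurd h2 hzD
          have hs2 : Sep (red E Y x y Q) (Y \ Q) u v (C \ Q) D := by
            refine ⟨hs'.ne, fun h => hs'.xP (mem_sdiff.1 h).1, hs'.xQ, fun h => hs'.yP (mem_sdiff.1 h).1,
              hs'.yQ, ⟨z', mem_sdiff.2 hzC⟩, hs'.Q0, hs'.dis.mono_left sdiff_subset, ?_, ?_⟩
            · ext w
              have h1 := hY' w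
              simp only [mem_insert, mem_union, mem_sdiff]
              constructor
              · rintro (h5 | h5 | h5 | h5)
                · exact ⟨h1.2 (Or.inl h5), h5 ▸ huQ⟩
                · exact ⟨h1.2 (Or.inr (Or.inl h5)), h5 ▸ hvQ⟩
                · exact ⟨h1.2 (Or.inr (Or.inr (Or.inl h5.1))), h5.2⟩
                · exact ⟨h1.2 (Or.inr (Or.inr (Or.inr h5))), hPQ (hDP h5)⟩
              · rintro ⟨h5, h6⟩
                rcases h1.1 h5 with h7 | h7 | h7 | h7
                · exact Or.inl h7
                · exact Or.inr (Or.inl h7)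
                · exact Or.inr (Or.inr (Or.inl ⟨h7, h6⟩))
                · exact Or.inr (Or.inr (Or.inr h7))
            · intro a ha b hb he
              rcases mem_red.1 he with h1 | h1
              · rcases Sym2.eq_iff.1 h1 with ⟨-, h2⟩ | ⟨-, h2⟩
                · exact hyD (h2 ▸ hb)
                · exact hxD (h2 ▸ hb)
              · exact hs'.noE a (mem_sdiff.1 ha).1 b hb h1.1
          refine U7.step hs2 ?_
          have h2 : (Y \ Q) \ D = (Y \ D) \ Q := by
            ext w
            simp only [mem_sdiff]
            tauto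
          have h3 : ∀ E : Finset (Sym2 V), red (red E Y x y Q) (Y \ Q) u v D = red (red E Y u v D) (Y \ D) x y Q := by
            intro E
            unfold red
            rw [h2]
            have h7 : (Y \ D) \ Q ⊆ Y \ Q := sdiff_subset_sdiff sdiff_subset Subset.rfl
            have h8 : (Y \ D) \ Q ⊆ Y \ D := sdiff_subset
            have h9 : s(x, y) ∈ ((Y \ D) \ Q).sym2 := by
              rw [mk_mem_sym2_iff, mem_sdiff, mem_sdiff, mem_sdiff, mem_sdiff]
              exact ⟨⟨⟨hxY, hxD⟩, hs.xQ⟩, ⟨hyY, hyD⟩, hs.yQ⟩
            have h10 : s(u, v) ∈ ((Y \ D) \ Q).sym2 := by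
              rw [mk_mem_sym2_iff, mem_sdiff, mem_sdiff, mem_sdiff, mem_sdiff]
              exact ⟨⟨⟨huY, hs'.xQ⟩, huQ⟩, ⟨hvY, hs'.yQ⟩, hvQ⟩
            ext e
            simp only [mem_insert, mem_inter]
            constructor
            · rintro (h4 | ⟨h4 | ⟨h4, h5⟩, h6⟩)
              · exact Or.inr ⟨Or.inl h4, h4 ▸ h10⟩
              · exact Or.inl h4
              · exact Or.inr ⟨Or.inr ⟨h4, sym2_mono h8 h6⟩, h6⟩
            · rintro (h4 | ⟨h4 | ⟨h4, h5⟩, h6⟩)
              · exact Or.inr ⟨Or.inl h4, h4 ▸ h9⟩
              · exact Or.inl h4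
              · exact Or.inr ⟨Or.inr ⟨h4, sym2_mono h7 h6⟩, h6⟩
          rw [h2, h3 E, h3 G]
          exact hi
        · -- `D` is inside `Q`
          obtain ⟨z, hz, hzx, hzy⟩ := hne2
          have hzQ : z ∈ Q ∧ z ∉ D := by
            have hzY : z ∈ Y := by rcases hz with h2 | h2 <;> rw [h2] <;> assumption
            have hzP : z ∉ P := by rcases hz with h2 | h2 <;> rw [h2] <;> assumption
            rcases (hY z).1 hzY with h2 | h2 | h2 | h2
            · exact absurd h2 hzx
            · exact absurd h2 hzy
            · exact absurd h2 hzP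
            · refine ⟨h2, ?_⟩
              rcases hz with h3 | h3 <;> rw [h3]
              · exact hs'.xQ
              · exact hs'.yQ
          have hs1 : Sep (red E Y u v D) (Y \ D) x y P (Q \ D) := by
            refine ⟨hs.ne, hs.xP, fun h => hs.xQ (mem_sdiff.1 h).1, hs.yP,
              fun h => hs.yQ (mem_sdiff.1 h).1, hs.P0, ⟨z, mem_sdiff.2 hzQ⟩,
              hs.dis.mono_right sdiff_subset, ?_, ?_⟩
            · ext w
              have h1 := hY w
              simp only [mem_insert, mem_union, mem_sdiff]
              constructor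
              · rintro (h5 | h5 | h5 | h5)
                · exact ⟨h1.2 (Or.inl h5), h5 ▸ hxD⟩
                · exact ⟨h1.2 (Or.inr (Or.inl h5)), h5 ▸ hyD⟩
                · exact ⟨h1.2 (Or.inr (Or.inr (Or.inl h5))), fun h6 => hPQ h5 (hDQ h6)⟩
                · exact ⟨h1.2 (Or.inr (Or.inr (Or.inr h5.1))), h5.2⟩
              · rintro ⟨h5, h6⟩
                rcases h1.1 h5 with h7 | h7 | h7 | h7
                · exact Or.inl h7
                · exact Or.inr (Or.inl h7)
                · exact Or.inr (Or.inr (Or.inl h7))
                · exact Or.inr (Or.inr (Or.inr ⟨h7, h6⟩))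
            · intro a ha b hb he
              rcases mem_red.1 he with h1 | h1
              · rcases Sym2.eq_iff.1 h1 with ⟨h2, -⟩ | ⟨h2, -⟩
                · exact huP (h2 ▸ ha)
                · exact hvP (h2 ▸ ha)
              · exact hs.noE a ha b (mem_sdiff.1 hb).1 h1.1
          have hi := ih hGE1 hG1 hT1 hs1 (unc_red hu hs') (hW.mono_right sdiff_subset)
          have h2 : (Y \ D) \ (Q \ D) = Y \ Q := by
            ext w
            simp only [mem_sdiff, not_and, not_not]
            constructor
            · rintro ⟨⟨h5, h6⟩, h7⟩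
              exact ⟨h5, fun h8 => h6 (h7 h8)⟩
            · rintro ⟨h5, h6⟩
              exact ⟨⟨h5, fun h7 => h6 (hDQ h7)⟩, fun h7 => absurd h7 h6⟩
          have h3 : ∀ E : Finset (Sym2 V), red (red E Y u v D) (Y \ D) x y (Q \ D) = red E Y x y Q := by
            intro E
            unfold red
            rw [h2]
            have h7 : Y \ Q ⊆ Y \ D := sdiff_subset_sdiff Subset.rfl hDQ
            ext e
            simp only [mem_insert, mem_inter]
            constructor
            · rintro (h4 | ⟨h4 | ⟨h4, h5⟩, h6⟩)
              · exact Or.inl h4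
              · exfalso
                rw [h4, mk_mem_sym2_iff, mem_sdiff, mem_sdiff] at h6
                rcases hz with h8 | h8 <;> rw [h8] at hzQ
                · exact h6.1.2 hzQ.1
                · exact h6.2.2 hzQ.1
              · exact Or.inr ⟨h4, h6⟩
            · rintro (h4 | ⟨h4, h5⟩)
              · exact Or.inl h4
              · exact Or.inr ⟨Or.inr ⟨h4, sym2_mono h7 h5⟩, h5⟩
          rw [h2, h3 E, h3 G] at hi
          exact hi


end

end H36V
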